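import Pool.Agent.H66Z.MF.Kill

set_option autoImplicit false

open Equiv Matrix Filter Topology
open scoped Matrix.Norms.L2Operator

namespace Pool.Agent.H66Z.MF

/-- permutation matrices as unitaries -/
noncomputable def uni {k : ℕ} : Perm (Fin k) →* unitaryGroup (Fin k) ℂ :=
  (permMatrixHom (R := ℂ)).codRestrict (unitaryGroup (Fin k) ℂ) fun σ => by
    rw [mem_unitaryGroup_iff', star_eq_conjTranspose, permMatrixHom_apply,
      conjTranspose_permMatrix, ← permMatrix_mul, inv_inv, inv_mul_cancel, permMatrix_one]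

lemma uni_star {k : ℕ} (σ : Perm (Fin k)) : ((uni σ).1)ᴴ = (uni σ⁻¹).1 := by
  rw [map_inv]; rfl

lemma uni_mul {k : ℕ} (σ τ : Perm (Fin k)) : (uni σ).1 * (uni τ).1 = (uni (σ * τ)).1 := by
  rw [map_mul]; rfl

lemma trace_uni {k : ℕ} (σ : Perm (Fin k)) : (trace (uni σ).1).re = k - σ.support.card := by
  have h1 : (uni σ).1 = (σ⁻¹).permMatrix ℂ := rfl
  rw [h1, trace_permutation, ← Perm.support_inv]
  generalize σ⁻¹ = τ
  have h2 : Function.fixedPoints τ = ↑(τ.supportᶜ) := by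
    ext x; simp [Function.IsFixedPt]
  have h3 := Finset.card_add_card_compl τ.support
  rw [Fintype.card_fin] at h3
  rw [h2, Set.ncard_coe_finset, Complex.natCast_re, eq_sub_iff_add_eq']
  exact_mod_cast h3

lemma hs_uni {k : ℕ} (σ τ : Perm (Fin k)) :
    (trace (((uni σ).1 - (uni τ).1)ᴴ * ((uni σ).1 - (uni τ).1))).re =
      2 * ((τ⁻¹ * σ).support.card : ℝ) := by
  rw [conjTranspose_sub, uni_star, uni_star, sub_mul, mul_sub, mul_sub, uni_mul, uni_mul, uni_mul,
    uni_mul]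
  simp only [trace_sub, Complex.sub_re, trace_uni, inv_mul_cancel, Perm.support_one,
    Finset.card_empty]
  rw [← Perm.support_inv (σ⁻¹ * τ), _root_.mul_inv_rev, inv_inv]
  push_cast
  ring

variable {F : Type} [Group F] {k : ℕ → ℕ} (ψ : ∀ n, F →* Perm (Fin (k n)))

/-- the elements moving a vanishing proportion of points -/
def nullP : Subgroup F where
  carrier := {w | Tendsto (fun n => ((ψ n w).support.card : ℝ) / k n) atTop (𝓝 0)}
  mul_mem' := by
    intro x y hx hy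
    refine squeeze_zero (fun n => by positivity)
      (g := fun n => ((ψ n x).support.card : ℝ) / k n + ((ψ n y).support.card : ℝ) / k n)
      (fun n => ?_) (by simpa using Tendsto.add hx hy)
    rw [← add_div, map_mul]
    refine div_le_div_of_nonneg_right ?_ (Nat.cast_nonneg _)
    exact_mod_cast (Finset.card_le_card (Perm.support_mul_le _ _)).trans (Finset.card_union_le _ _)
  one_mem' := by simp
  inv_mem' := by
    intro x hx
    simpa only [Set.mem_setOf_eq, map_inv, Perm.support_inv] using hx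

instance : (nullP ψ).Normal := ⟨fun x hx g => by
  have : Tendsto (fun n => ((ψ n x).support.card : ℝ) / k n) atTop (𝓝 0) := hx
  show Tendsto (fun n => ((ψ n (g * x * g⁻¹)).support.card : ℝ) / k n) atTop (𝓝 0)
  simpa only [map_mul, map_inv, Perm.card_support_conj] using this⟩

lemma mk_eq_of {x y : F} (h : ∀ n, ψ n x = ψ n y) :
    QuotientGroup.mk' (nullP ψ) x = QuotientGroup.mk' (nullP ψ) y := by
  rw [QuotientGroup.mk'_apply, QuotientGroup.mk'_apply, QuotientGroup.eq]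
  show Tendsto (fun n => ((ψ n (x⁻¹ * y)).support.card : ℝ) / k n) atTop (𝓝 0)
  simp [h]

lemma hs_asymp (g h : F ⧸ nullP ψ) : Tendsto (fun n : ℕ =>
    (trace (((uni (ψ n (g * h).out)).1 - (uni (ψ n g.out)).1 * (uni (ψ n h.out)).1)ᴴ *
      ((uni (ψ n (g * h).out)).1 - (uni (ψ n g.out)).1 * (uni (ψ n h.out)).1))).re / (k n : ℝ))
    atTop (𝓝 0) := by
  have h1 : (g.out * h.out)⁻¹ * (g * h).out ∈ nullP ψ := by
    rw [← QuotientGroup.eq]; simp
  have h2 : Tendsto (fun n => ((ψ n ((g.out * h.out)⁻¹ * (g * h).out)).support.card : ℝ) / k n)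
    atTop (𝓝 0) := h1
  have h3 := h2.const_mul 2
  rw [mul_zero] at h3
  refine h3.congr fun n => ?_
  rw [uni_mul, hs_uni, mul_div_assoc]
  simp only [map_mul, map_inv]

lemma eq_one_of_close (g : F ⧸ nullP ψ) (ρ : ∀ n, Matrix (Fin (k n)) (Fin (k n)) ℂ)
    (h1 : Nul fun n => ρ n - 1)
    (h2 : Tendsto (fun n : ℕ => (trace (((uni (ψ n g.out)).1 - ρ n)ᴴ *
      ((uni (ψ n g.out)).1 - ρ n))).re / (k n : ℝ)) atTop (𝓝 0)) : g = 1 := by
  rw [← QuotientGroup.out_eq' g, QuotientGroup.eq_one_iff]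
  have h3 : Tendsto (fun n => ‖ρ n - 1‖ ^ 2) atTop (𝓝 0) := by simpa using Tendsto.pow h1 2
  have h4 := h2.add h3
  rw [add_zero] at h4
  refine squeeze_zero (fun n => by positivity) (fun n => ?_) h4
  have e1 := hs_uni (ψ n g.out) 1
  rw [inv_one, one_mul, map_one, ← fro_sq] at e1
  rw [← fro_sq]
  have e2 := fro_add_le ((uni (ψ n g.out)).1 - ρ n) (ρ n - 1)
  rw [sub_add_sub_cancel] at e2
  have e3 := fro_mul_left (ρ n - 1) 1
  rw [mul_one] at e3
  have e4 : fro (1 : Matrix (Fin (k n)) (Fin (k n)) ℂ) ^ 2 = k n := by simp [fro_sq]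
  have e5 : fro (ρ n - 1) ^ 2 ≤ ‖ρ n - 1‖ ^ 2 * k n := by
    rw [← e4, ← mul_pow]
    exact pow_le_pow_left₀ (fro_nonneg _) e3 2
  have e6 : fro ((uni (ψ n g.out)).1 - 1) ^ 2 ≤
      (fro ((uni (ψ n g.out)).1 - ρ n) + fro (ρ n - 1)) ^ 2 :=
    pow_le_pow_left₀ (fro_nonneg _) e2 2
  have e7 : fro ((uni (ψ n g.out)).1 - 1) ^ 2 = 2 * ((ψ n g.out).support.card : ℝ) := e1
  rcases Nat.eq_zero_or_pos (k n) with h0 | h0
  · simp only [h0, Nat.cast_zero, div_zero, zero_add]
    positivity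
  · have hk : (0 : ℝ) < k n := by exact_mod_cast h0
    rw [div_add' _ _ _ hk.ne']
    refine div_le_div_of_nonneg_right ?_ hk.le
    nlinarith [sq_nonneg (fro ((uni (ψ n g.out)).1 - ρ n) - fro (ρ n - 1))]

end Pool.Agent.H66Z.MF
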