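import Pool.Agent.H66Z.MF.Model
import Pool.Agent.H66Z.MF.Sofic

set_option autoImplicit false

open Equiv Matrix Filter Topology
open scoped Matrix.Norms.L2Operator

namespace Pool.Agent.H66Z.MF

/-- the symmetric group on six points -/
abbrev F6 := Perm (ZMod 2 × Fin 3)

/-- the fixed point free involution -/
def flip6 : F6 :=
  Function.Involutive.toPerm (fun p => (p.1 + 1, p.2)) fun p => Prod.ext (two_add _ _) rfl

lemma top_of_flip (K : Subgroup F6) (hK : K.Normal) (h : flip6 ∈ K) (σ : F6) : σ ∈ K := by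
  have h1 : swap ((0, 0) : ZMod 2 × Fin 3) (1, 0) =
      flip6 * (swap (1, 1) (0, 2) * flip6 * (swap (1, 1) (0, 2))⁻¹) *
        (swap (1, 1) (1, 2) * flip6 * (swap (1, 1) (1, 2))⁻¹) := by
    refine Equiv.ext ?_
    decide
  have h2 : swap ((0, 0) : ZMod 2 × Fin 3) (1, 0) ∈ K := by
    rw [h1]
    exact K.mul_mem (K.mul_mem h (hK.conj_mem _ h _)) (hK.conj_mem _ h _)
  induction σ using Perm.swap_induction_on with
  | one => exact K.one_mem
  | swap_mul f x y hxy hf =>
    obtain ⟨c, hc⟩ := isConj_iff.1 (Perm.isConj_swap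
      (show ((0, 0) : ZMod 2 × Fin 3) ≠ (1, 0) by decide) hxy)
    exact K.mul_mem (hc ▸ hK.conj_mem _ h2 c) hf

section big
variable {A L : Type}

/-- the action of the six point group -/
def act6 : F6 →* Perm (((A × ZMod 2) × L) × Fin 3) where
  toFun σ :=
    { toFun := fun p => (((p.1.1.1, (σ (p.1.1.2, p.2)).1), p.1.2), (σ (p.1.1.2, p.2)).2)
      invFun := fun p => (((p.1.1.1, (σ⁻¹ (p.1.1.2, p.2)).1), p.1.2), (σ⁻¹ (p.1.1.2, p.2)).2)
      left_inv := fun p => by simp
      right_inv := fun p => by simp }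
  map_one' := rfl
  map_mul' _ _ := rfl

lemma act6_mov (s : Perm (Fin 3)) :
    (act6 (mov s) : Perm (((A × ZMod 2) × L) × Fin 3)) = mov s := rfl

lemma act6_flip : (act6 flip6 : Perm (((A × ZMod 2) × L) × Fin 3)) =
    emb fun _ => emb fun _ => zz := rfl

end big

section tri
variable {Ω : Type}

/-- act by `x` on the first copy and by `y` on the second -/
def tri (x y : Perm Ω) : Perm (Ω × Fin 3) := emb ![x, y, 1]

lemma rel_tri {a b e t c d z : Perm Ω} (h : Rel a b e t c d z) :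
    Rel (tri a a⁻¹) (tri b b⁻¹) (tri e 1) (tri t t⁻¹) (tri c c⁻¹) (tri d d⁻¹) (tri z 1) := by
  refine rel_emb fun i => ?_
  fin_cases i
  exacts [h, h.inv, Rel.one]

lemma tri_rel1 (g : Perm Ω) :
    tri g g⁻¹ * (mov (finRotate 3) * tri g g⁻¹ * (mov (finRotate 3))⁻¹) =
      mov (swap 1 2) * tri g g⁻¹ * (mov (swap 1 2))⁻¹ := by
  rw [tri, conj_emb, conj_emb, ← map_mul]
  congr 1
  funext i
  fin_cases i
  · exact mul_one g
  · exact inv_mul_cancel g
  · exact one_mul g⁻¹

lemma tri_rel2 (g : Perm Ω) :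
    tri g 1 * (mov (swap 0 1) * tri g 1 * (mov (swap 0 1))⁻¹) *
      (mov (swap 0 2) * tri g 1 * (mov (swap 0 2))⁻¹) = emb fun _ => g := by
  rw [tri, conj_emb, conj_emb, ← map_mul, ← map_mul]
  congr 1
  funext i
  fin_cases i <;> rfl

lemma tri_bad {a b e t : Perm Ω} : (tri t t⁻¹ * tri e 1 * (tri t t⁻¹)⁻¹)⁻¹ *
    ep (tri a a⁻¹) (tri b b⁻¹) (tri e 1) = tri ((t * e * t⁻¹)⁻¹ * ep a b e) 1 := by
  simp only [tri, ← map_ep, ← map_inv, ← map_mul]
  congr 1
  funext i
  fin_cases i <;> simp [ep, cm]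

end tri

/-- the function space at stage `n` -/
abbrev Vn (n : ℕ) := ZMod (2 ^ (n + 1)) → ZMod 5
/-- the levels at stage `n` -/
abbrev Om (n : ℕ) := Lamp (Vn n × Vn n × Vn n) × Fin (n + 1)
/-- the point set at stage `n` -/
abbrev Bn (n : ℕ) := Om n × Fin 3

/-- the shift parameter of a level -/
def mm (n : ℕ) (j : Fin (n + 1)) : ZMod (2 ^ (n + 1)) := 2 ^ (j : ℕ)

/-- the seven generators on one copy -/
noncomputable def g1 (n : ℕ) : Fin 7 → Perm (Om n) :=
  ![emb fun _ => lift pa, emb fun _ => lift pb, emb fun j => lift (pe (shift (mm n j))),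
    mov (finRotate (n + 1))⁻¹, emb fun j => cflip (cube (supp (mm n j + mm n j))),
    emb fun j => dadd (((pe (shift (mm n j)))⁻¹ : Perm _) ⁻¹' cube (supp (mm n j + mm n j))),
    emb fun _ => zz]

lemma rel_g1 (n : ℕ) :
    Rel (g1 n 0) (g1 n 1) (g1 n 2) (g1 n 3) (g1 n 4) (g1 n 5) (g1 n 6) :=
  (rel_emb (t := fun _ => 1) fun j => rel_level (mm n j) (not_dvd_pow j.2)).with_t
    (comm_emb _ _) (comm_emb _ _)

lemma bad_g1 (n : ℕ) (p : Om n) (hp : p.2 ≠ Fin.last n) :
    ((g1 n 3 * g1 n 2 * (g1 n 3)⁻¹)⁻¹ * ep (g1 n 0) (g1 n 1) (g1 n 2)) p = p := by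
  have h1 : g1 n 3 * g1 n 2 * (g1 n 3)⁻¹ =
      emb fun j => lift (pe (shift (mm n (finRotate (n + 1) j)))) := conj_emb _ _
  have h2 : ep (g1 n 0) (g1 n 1) (g1 n 2) =
      emb fun j => lift (pe (shift (mm n j + mm n j))) := by
    refine (map_ep emb _ _ _).symm.trans (congrArg emb (funext fun j => ?_))
    rw [← shift_shift, ← ep_pe, map_ep]
    rfl
  have h3 : mm n (finRotate (n + 1) p.2) = mm n p.2 + mm n p.2 := by
    rw [mm, coe_finRotate_of_ne_last hp, mm]
    ring
  rw [h1, h2, Perm.mul_apply, Perm.inv_eq_iff_eq]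
  refine Prod.ext ?_ rfl
  show lift (pe (shift (mm n p.2 + mm n p.2))) p.1 =
    lift (pe (shift (mm n (finRotate (n + 1) p.2)))) p.1
  rw [h3]

/-- the generators on three copies -/
noncomputable def g3 (n : ℕ) : Fin 7 ⊕ F6 → Perm (Bn n)
  | .inl i => tri (g1 n i) (if i = 2 ∨ i = 6 then 1 else (g1 n i)⁻¹)
  | .inr σ => act6 σ

instance (n : ℕ) : Finite (Bn n) := by
  haveI : NeZero (2 ^ (n + 1)) := ⟨by positivity⟩
  infer_instance

/-- the number of points -/
noncomputable def kk (n : ℕ) : ℕ := Nat.card (Bn n)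

/-- the free group on the generators -/
abbrev FF := FreeGroup (Fin 7 ⊕ F6)

/-- the permutation models -/
noncomputable def psi0 (n : ℕ) : FF →* Perm (Bn n) := FreeGroup.lift (g3 n)

/-- the permutation models, transported -/
noncomputable def psi (n : ℕ) : FF →* Perm (Fin (kk n)) :=
  (Finite.equivFin (Bn n)).permCongrHom.toMonoidHom.comp (psi0 n)

/-- the group -/
abbrev GG : Type := FF ⧸ nullP psi

/-- the quotient map -/
noncomputable def pr : FF →* GG := QuotientGroup.mk' (nullP psi)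

lemma pr_eq {x y : FF} (h : ∀ n, psi0 n x = psi0 n y) : pr x = pr y :=
  mk_eq_of psi fun n => congrArg (Finite.equivFin (Bn n)).permCongrHom (h n)

/-- the generators -/
noncomputable def gen (i : Fin 7) : GG := pr (FreeGroup.of (.inl i))

/-- the six point group inside the group -/
noncomputable def io : F6 →* GG :=
  MonoidHom.mk' (fun σ => pr (FreeGroup.of (.inr σ))) fun σ τ => by
    rw [← map_mul]
    refine pr_eq fun n => ?_
    simp only [psi0, map_mul, FreeGroup.lift_apply_of, g3]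

lemma rel_gen : Rel (gen 0) (gen 1) (gen 2) (gen 3) (gen 4) (gen 5) (gen 6) :=
  Rel.transfer pr psi0 (fun _ _ => pr_eq) fun n => by
    simp only [psi0, FreeGroup.lift_apply_of]
    exact rel_tri (rel_g1 n)

lemma mem_psi (n : ℕ) (w : FF) (x : Fin (kk n)) : x ∈ (psi n w).support ↔
    psi0 n w ((Finite.equivFin (Bn n)).symm x) ≠ (Finite.equivFin (Bn n)).symm x := by
  rw [Perm.mem_support]
  exact not_congr (Equiv.apply_eq_iff_eq_symm_apply (Finite.equivFin (Bn n)))

lemma te_gen : gen 3 * gen 2 * (gen 3)⁻¹ = ep (gen 0) (gen 1) (gen 2) := by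
  simp only [gen, ← map_ep, ← map_inv, ← map_mul]
  refine QuotientGroup.eq.2 ?_
  refine squeeze_zero (fun n => by positivity) (fun n => ?_) tendsto_one_div_add_atTop_nhds_zero_nat
  haveI : NeZero (2 ^ (n + 1)) := ⟨by positivity⟩
  set w : FF := _ * _ with hw
  have h1 : psi0 n w = tri ((g1 n 3 * g1 n 2 * (g1 n 3)⁻¹)⁻¹ * ep (g1 n 0) (g1 n 1) (g1 n 2)) 1 := by
    rw [hw, ← tri_bad]
    simp only [map_mul, map_inv, map_ep, psi0, FreeGroup.lift_apply_of]
    rfl
  have h2 : ∀ p : Bn n, psi0 n w p ≠ p → p.1.2 = Fin.last n := by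
    rintro ⟨p, i⟩ hp
    by_contra hne
    apply hp
    rw [h1]
    refine Prod.ext ?_ rfl
    fin_cases i
    exacts [bad_g1 n p hne, rfl, rfl]
  have h3 : (psi n w).support.card ≤ Nat.card (Lamp (Vn n × Vn n × Vn n) × Fin 3) := by
    rw [← Nat.card_eq_finsetCard]
    refine Nat.card_le_card_of_injective (fun x => (((Finite.equivFin (Bn n)).symm x.1).1.1,
      ((Finite.equivFin (Bn n)).symm x.1).2)) fun x y hxy => ?_
    have hx := h2 _ ((mem_psi n w x.1).1 x.2)
    have hy := h2 _ ((mem_psi n w y.1).1 y.2)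
    refine Subtype.ext ((Finite.equivFin (Bn n)).symm.injective ?_)
    exact Prod.ext (Prod.ext (Prod.ext_iff.1 hxy).1 (hx.trans hy.symm)) (Prod.ext_iff.1 hxy).2
  have h4 : kk n = Nat.card (Lamp (Vn n × Vn n × Vn n) × Fin 3) * (n + 1) := by
    rw [kk, Nat.card_prod, Nat.card_prod, Nat.card_prod _ (Fin 3), Nat.card_fin (n + 1)]
    ring
  have h5 : 0 < Nat.card (Lamp (Vn n × Vn n × Vn n) × Fin 3) := Nat.card_pos
  have h6 : 0 < kk n := Nat.card_pos
  rw [div_le_div_iff₀ (by positivity) (by positivity), one_mul]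
  exact_mod_cast (Nat.mul_le_mul_right _ h3).trans h4.ge

lemma flip_ne_one : io flip6 ≠ 1 := by
  intro h
  have h1 : Tendsto (fun n => ((psi n (FreeGroup.of (.inr flip6))).support.card : ℝ) / kk n)
    atTop (𝓝 0) := (QuotientGroup.eq_one_iff _).1 h
  have h2 : ∀ n, ((psi n (FreeGroup.of (.inr flip6))).support.card : ℝ) / kk n = 1 := by
    intro n
    have h3 : (psi n (FreeGroup.of (.inr flip6))).support = Finset.univ := by
      refine Finset.eq_univ_of_forall fun x => (mem_psi _ _ _).2 ?_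
      generalize (Finite.equivFin (Bn n)).symm x = p
      simp only [psi0, FreeGroup.lift_apply_of]
      intro hp
      have h4 : p.1.1.2 + 1 = p.1.1.2 := congrArg (fun q : Bn n => q.1.1.2) hp
      simp at h4
    have h5 : 0 < kk n := Nat.card_pos
    rw [h3, Finset.card_univ, Fintype.card_fin, div_self (by positivity)]
  simp only [h2] at h1
  simpa using tendsto_nhds_unique h1 tendsto_const_nhds

lemma top_of_z (K : Subgroup GG) (hK : K.Normal) (hz : gen 6 ∈ K) (g : GG) : g ∈ K := by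
  have h1 : io flip6 = gen 6 * (io (mov (swap 0 1)) * gen 6 * (io (mov (swap 0 1)))⁻¹) *
      (io (mov (swap 0 2)) * gen 6 * (io (mov (swap 0 2)))⁻¹) := by
    simp only [io, gen, MonoidHom.mk'_apply, ← map_inv pr, ← map_mul pr]
    refine pr_eq fun n => ?_
    simp only [map_mul, map_inv, psi0, FreeGroup.lift_apply_of]
    exact (tri_rel2 (g1 n 6)).symm
  have h2 : ∀ σ, io σ ∈ K := top_of_flip (K.comap io) (hK.comap io) (by
    rw [Subgroup.mem_comap, h1]
    exact K.mul_mem (K.mul_mem hz (hK.conj_mem _ hz _)) (hK.conj_mem _ hz _))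
  have h3 : ∀ i : Fin 7, ¬ (i = 2 ∨ i = 6) → gen i ∈ K := by
    intro i hi
    have h4 : gen i * (io (mov (finRotate 3)) * gen i * (io (mov (finRotate 3)))⁻¹) =
        io (mov (swap 1 2)) * gen i * (io (mov (swap 1 2)))⁻¹ := by
      simp only [io, gen, MonoidHom.mk'_apply, ← map_inv pr, ← map_mul pr]
      refine pr_eq fun n => ?_
      simp only [map_mul, map_inv, psi0, FreeGroup.lift_apply_of, g3, if_neg hi]
      exact tri_rel1 (g1 n i)
    have h5 : gen i = io (mov (swap 1 2)) * (gen i * ((io (mov (swap 1 2)))⁻¹ *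
        io (mov (finRotate 3))) * (gen i)⁻¹) * (io (mov (finRotate 3)))⁻¹ := by
      have h6 := eq_mul_inv_of_mul_eq h4
      calc gen i = _ := h6
        _ = _ := by group
    rw [h5]
    exact K.mul_mem (K.mul_mem (h2 _) (hK.conj_mem _ (K.mul_mem (K.inv_mem (h2 _)) (h2 _)) _))
      (K.inv_mem (h2 _))
  have h6 : gen 2 ∈ K := by
    have h7 : ∀ x ∈ K, ∀ y, cm y x ∈ K := fun x hx y =>
      K.mul_mem (hK.conj_mem _ hx y) (K.inv_mem hx)
    have h8 : ∀ x ∈ K, ∀ y, cm x y ∈ K := fun x hx y => by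
      have := K.mul_mem hx (hK.conj_mem _ (K.inv_mem hx) y)
      simpa only [cm, mul_assoc] using this
    have h9 : gen 3 * gen 2 * (gen 3)⁻¹ ∈ K := by
      rw [te_gen]
      exact h8 _ (h7 _ (h3 0 (by decide)) _) _
    simpa [mul_assoc] using hK.conj_mem _ h9 (gen 3)⁻¹
  obtain ⟨w, rfl⟩ := QuotientGroup.mk'_surjective _ g
  induction w using FreeGroup.induction_on with
  | C1 => exact K.one_mem
  | of x =>
    rcases x with i | σ
    · by_cases hi : i = 2 ∨ i = 6
      · rcases hi with rfl | rfl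
        exacts [h6, hz]
      · exact h3 i hi
    · exact h2 σ
  | inv_of x hx => rw [map_inv]; exact K.inv_mem hx
  | mul x y hx hy => rw [map_mul]; exact K.mul_mem hx hy

theorem all_trivial {k : ℕ → ℕ} (φ : ∀ n, GG → unitaryGroup (Fin (k n)) ℂ)
    (hφ : ∀ g h, Nul fun n => (φ n (g * h)).1 - (φ n g).1 * (φ n h).1) (g : GG) :
    Nul fun n => (φ n g).1 - 1 :=
  top_of_z (kerA φ hφ) (kerA_normal φ hφ) (kill φ hφ rel_gen te_gen) g

lemma nul_hom {G : Type*} [Group G] {k : ℕ → ℕ} (ρ : ∀ n, G →* unitaryGroup (Fin (k n)) ℂ)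
    (g h : G) : Nul fun n => (ρ n (g * h)).1 - (ρ n g).1 * (ρ n h).1 := by
  have : ∀ n, ‖(ρ n (g * h)).1 - (ρ n g).1 * (ρ n h).1‖ = 0 := fun n => by simp
  unfold Nul
  simp only [this]
  exact tendsto_const_nhds

end Pool.Agent.H66Z.MF
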