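import Mathlib

set_option autoImplicit false

open scoped InnerProductSpace RealInnerProductSpace Matrix.Norms.L2Operator MatrixOrder
  ComplexOrder
open Matrix

namespace Pool.Agent.H66Z.MF

/-- complex matrices with the real trace inner product -/
def HS (ι : Type) : Type := Matrix ι ι ℂ

variable {ι : Type} [Fintype ι] [DecidableEq ι]

noncomputable instance : AddCommGroup (HS ι) := inferInstanceAs (AddCommGroup (Matrix ι ι ℂ))
noncomputable instance : Module ℝ (HS ι) := inferInstanceAs (Module ℝ (Matrix ι ι ℂ))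

/-- the underlying matrix -/
noncomputable def mat : HS ι ≃ₗ[ℝ] Matrix ι ι ℂ := LinearEquiv.refl ℝ (Matrix ι ι ℂ)

/-- the trace inner product -/
@[reducible] noncomputable def hsCore : InnerProductSpace.Core ℝ (HS ι) where
  inner x y := (trace ((mat x)ᴴ * mat y)).re
  conj_inner_symm x y := by
    have : trace ((mat y)ᴴ * mat x) = star (trace ((mat x)ᴴ * mat y)) := by
      rw [← trace_conjTranspose, conjTranspose_mul, conjTranspose_conjTranspose]
    simp [this]
  re_inner_nonneg x := by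
    simpa using (Complex.nonneg_iff.1 (posSemidef_conjTranspose_mul_self (mat x)).trace_nonneg).1
  add_left x y z := by simp [add_mul]
  smul_left x y r := by simp
  definite x hx := by
    have h := Complex.nonneg_iff.1 (posSemidef_conjTranspose_mul_self (mat x)).trace_nonneg
    have : trace ((mat x)ᴴ * mat x) = 0 := Complex.ext hx h.2.symm
    rw [trace_conjTranspose_mul_self_eq_zero_iff] at this
    exact mat.injective (this.trans (map_zero _).symm)

noncomputable instance : NormedAddCommGroup (HS ι) := (hsCore (ι := ι)).toNormedAddCommGroup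
noncomputable instance : InnerProductSpace ℝ (HS ι) :=
  InnerProductSpace.ofCore (hsCore (ι := ι)).toCore
instance : FiniteDimensional ℝ (HS ι) := mat.symm.finiteDimensional

lemma hs_inner (x y : HS ι) : ⟪x, y⟫_ℝ = (trace ((mat x)ᴴ * mat y)).re := rfl

/-- the Frobenius norm -/
noncomputable def fro (X : Matrix ι ι ℂ) : ℝ := ‖mat.symm X‖

lemma fro_mat (x : HS ι) : fro (mat x) = ‖x‖ := rfl

lemma fro_nonneg (X : Matrix ι ι ℂ) : 0 ≤ fro X := norm_nonneg _

lemma fro_sq (X : Matrix ι ι ℂ) : fro X ^ 2 = (trace (Xᴴ * X)).re := by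
  rw [fro, ← real_inner_self_eq_norm_sq, hs_inner]; rfl

lemma fro_add_le (X Y : Matrix ι ι ℂ) : fro (X + Y) ≤ fro X + fro Y := by
  simp only [fro, map_add]; exact norm_add_le _ _

lemma fro_conjTranspose (X : Matrix ι ι ℂ) : fro Xᴴ = fro X := by
  refine (pow_left_inj₀ (fro_nonneg _) (fro_nonneg _) two_ne_zero).1 ?_
  rw [fro_sq, fro_sq, conjTranspose_conjTranspose, trace_mul_comm]

lemma fro_mul_left (A X : Matrix ι ι ℂ) : fro (A * X) ≤ ‖A‖ * fro X := by
  refine (pow_le_pow_iff_left₀ (fro_nonneg _) (mul_nonneg (norm_nonneg _) (fro_nonneg _))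
    two_ne_zero).1 ?_
  have h := CStarAlgebra.star_left_conjugate_le_norm_smul (a := X) (b := star A * A)
    (IsSelfAdjoint.star_mul_self A)
  have h2 := (Complex.nonneg_iff.1 (Matrix.le_iff.1 h).trace_nonneg).1
  rw [CStarRing.norm_star_mul_self] at h2
  rw [mul_pow, fro_sq, fro_sq, conjTranspose_mul]
  simp only [star_eq_conjTranspose, trace_sub, trace_smul, Complex.sub_re, Complex.smul_re,
    smul_eq_mul, sub_nonneg, mul_assoc] at h2 ⊢
  rw [sq, mul_assoc]
  exact h2

lemma fro_mul_right (X A : Matrix ι ι ℂ) : fro (X * A) ≤ ‖A‖ * fro X := by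
  rw [← fro_conjTranspose, conjTranspose_mul, ← fro_conjTranspose X,
    ← l2_opNorm_conjTranspose A]
  exact fro_mul_left _ _

/-- left and right multiplication -/
noncomputable def LR (A B : Matrix ι ι ℂ) : HS ι →L[ℝ] HS ι :=
  LinearMap.toContinuousLinearMap
    { toFun := fun x => mat.symm (A * mat x * B)
      map_add' := fun x y => by simp [mul_add, add_mul]
      map_smul' := fun c x => by simp }

lemma mat_LR (A B : Matrix ι ι ℂ) (x : HS ι) : mat (LR A B x) = A * mat x * B := rfl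

lemma norm_LR_le (A B : Matrix ι ι ℂ) : ‖LR A B‖ ≤ ‖A‖ * ‖B‖ := by
  refine ContinuousLinearMap.opNorm_le_bound _ (by positivity) fun x => ?_
  rw [← fro_mat, mat_LR, ← fro_mat]
  refine (fro_mul_right _ _).trans ?_
  rw [mul_comm ‖A‖, mul_assoc]
  exact mul_le_mul_of_nonneg_left (fro_mul_left _ _) (norm_nonneg _)

lemma LR_mul (A B A' B' : Matrix ι ι ℂ) : LR A B * LR A' B' = LR (A * A') (B' * B) := by
  ext x
  apply mat.injective
  simp only [ContinuousLinearMap.mul_apply, mat_LR, mul_assoc]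

lemma norm_LR_sub (A B A' B' : Matrix ι ι ℂ) :
    ‖LR A B - LR A' B'‖ ≤ ‖A - A'‖ * ‖B‖ + ‖A'‖ * ‖B - B'‖ := by
  have : LR A B - LR A' B' = LR (A - A') B + LR A' (B - B') := by
    ext x
    apply mat.injective
    simp only [ContinuousLinearMap.sub_apply, ContinuousLinearMap.add_apply, map_sub, map_add,
      mat_LR, sub_mul, mul_sub]
    abel
  rw [this]
  have h1 := norm_add_le (LR (A - A') B) (LR A' (B - B'))
  have h2 := norm_LR_le (A - A') B
  have h3 := norm_LR_le A' (B - B')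
  exact h1.trans (add_le_add h2 h3)

lemma LR_iso {A B : Matrix ι ι ℂ} (hA : Aᴴ * A = 1) (hB : B * Bᴴ = 1) (x y : HS ι) :
    ⟪LR A B x, LR A B y⟫_ℝ = ⟪x, y⟫_ℝ := by
  rw [hs_inner, hs_inner, mat_LR, mat_LR, conjTranspose_mul, conjTranspose_mul]
  have : Bᴴ * ((mat x)ᴴ * Aᴴ) * (A * mat y * B) = Bᴴ * ((mat x)ᴴ * (Aᴴ * A) * mat y * B) := by
    simp only [mul_assoc]
  rw [this, hA, mul_one, trace_mul_comm, mul_assoc, hB, mul_one]

lemma norm_unitary_le (Z : unitaryGroup ι ℂ) : ‖Z.1‖ ≤ 1 := by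
  have h := CStarRing.norm_star_mul_self (x := Z.1)
  rw [Z.2.1] at h
  have h1 : ‖(1 : Matrix ι ι ℂ)‖ ≤ 1 := by
    rw [cstar_norm_def, map_one]
    exact ContinuousLinearMap.norm_id_le
  nlinarith [norm_nonneg Z.1]

/-- a unitary whose square is close to one is close to a symmetry -/
lemma exists_sym (Z : unitaryGroup ι ℂ) :
    ∃ s : Matrix ι ι ℂ, sᴴ = s ∧ s * s = 1 ∧ ‖Z.1 - s‖ ≤ ‖Z.1 * Z.1 - 1‖ := by
  set ε := ‖Z.1 * Z.1 - 1‖ with hε
  have h1 : star Z.1 * Z.1 = 1 := Z.2.1
  have h2 : Z.1 * star Z.1 = 1 := Z.2.2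
  have hd : ‖Z.1 - star Z.1‖ ≤ ε := by
    have : Z.1 - star Z.1 = (Z.1 * Z.1 - 1) * star Z.1 := by
      rw [sub_mul, mul_assoc, h2, mul_one, one_mul]
    rw [this]
    refine (norm_mul_le _ _).trans ?_
    rw [norm_star]
    exact mul_le_of_le_one_right (norm_nonneg _) (norm_unitary_le Z)
  have hd2 : ‖Z.1 - star Z.1‖ ≤ 2 := by
    refine (norm_sub_le _ _).trans ?_
    rw [norm_star]
    linarith [norm_unitary_le Z]
  let A : Matrix ι ι ℂ := (1 / 2 : ℝ) • (Z.1 + star Z.1)
  have hA : IsSelfAdjoint A := by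
    simp only [A, IsSelfAdjoint, star_smul, star_add, star_star, star_trivial, add_comm]
  have hA2 : A ^ 2 - 1 = (1 / 4 : ℝ) • ((Z.1 - star Z.1) * (Z.1 - star Z.1)) := by
    simp only [A, sq, smul_mul_assoc, mul_smul_comm, mul_add, add_mul, mul_sub, sub_mul, h1, h2]
    module
  have hA3 : ‖A ^ 2 - 1‖ ≤ ε / 2 := by
    rw [hA2, norm_smul]
    have := norm_mul_le (Z.1 - star Z.1) (Z.1 - star Z.1)
    rw [Real.norm_of_nonneg (by norm_num)]
    nlinarith [norm_nonneg (Z.1 - star Z.1)]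
  have hA4 : ‖Z.1 - A‖ ≤ ε / 2 := by
    have : Z.1 - A = (1 / 2 : ℝ) • (Z.1 - star Z.1) := by simp only [A]; module
    rw [this, norm_smul, Real.norm_of_nonneg (by norm_num)]
    linarith
  let f : ℝ → ℝ := fun x => if x < 0 then -1 else 1
  have hc : ∀ g : ℝ → ℝ, ContinuousOn g (spectrum ℝ A) := fun g =>
    A.finite_real_spectrum.continuousOn g
  refine ⟨cfc f A, (cfc_predicate f A : IsSelfAdjoint _), ?_, ?_⟩
  · rw [← cfc_mul f f A (hc _) (hc _), ← cfc_one ℝ A hA]
    congr 1
    funext x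
    by_cases hx : x < 0 <;> simp [f, hx]
  · have e1 : A - cfc f A = cfc (fun x => x - f x) A := by
      rw [cfc_sub (fun x : ℝ => x) f A (hc _) (hc _), cfc_id' ℝ A hA]
    have e2 : A ^ 2 - 1 = cfc (fun x : ℝ => x ^ 2 - 1) A := by
      rw [cfc_sub (fun x : ℝ => x ^ 2) (fun _ => 1) A (hc _) (hc _), cfc_pow_id A 2 hA,
        cfc_const_one ℝ A hA]
    have e3 : ‖A - cfc f A‖ ≤ ‖A ^ 2 - 1‖ := by
      rw [e1]
      refine norm_cfc_le (norm_nonneg _) fun x hx => ?_
      rw [e2]
      refine le_trans ?_ (norm_apply_le_norm_cfc (fun x : ℝ => x ^ 2 - 1) A hx (hc _) hA)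
      simp only [Real.norm_eq_abs]
      by_cases h0 : x < 0
      · simp only [f, h0, if_true]
        rw [show x ^ 2 - 1 = (x - -1) * (x - 1) by ring, abs_mul]
        refine le_mul_of_one_le_right (abs_nonneg _) ?_
        rw [abs_of_neg (by linarith)]
        linarith
      · simp only [f, h0, if_false]
        rw [show x ^ 2 - 1 = (x - 1) * (x + 1) by ring, abs_mul]
        refine le_mul_of_one_le_right (abs_nonneg _) ?_
        rw [abs_of_pos (by linarith)]
        linarith
    have := norm_add_le (Z.1 - A) (A - cfc f A)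
    rw [sub_add_sub_cancel] at this
    linarith

end Pool.Agent.H66Z.MF
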