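import Mathlib

set_option autoImplicit false

namespace Pool.Agent.H66Z.MF

section ring
variable {R : Type*} [Ring R] [Algebra ℝ R]

/-- average over the powers of an element of order five -/
noncomputable def avg (x : R) : R := (1 / 5 : ℝ) • (1 + x + x ^ 2 + x ^ 3 + x ^ 4)

lemma mul_avg {x : R} (h : x ^ 5 = 1) : x * avg x = avg x := by
  unfold avg
  rw [mul_smul_comm]
  congr 1
  have : x * x ^ 4 = 1 := by rw [← pow_succ', h]
  simp only [mul_add, mul_one, this, ← pow_succ', ← sq]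
  abel

lemma avg_mul {x : R} (h : x ^ 5 = 1) : avg x * x = avg x := by
  unfold avg
  rw [smul_mul_assoc]
  congr 1
  have : x ^ 4 * x = 1 := by rw [← pow_succ, h]
  simp only [add_mul, one_mul, this, ← pow_succ, ← sq]
  abel

lemma avg_mul_of_fix {x y : R} (h : x * y = y) : avg x * y = y := by
  have hp : ∀ n : ℕ, x ^ n * y = y := by
    intro n
    induction n with
    | zero => simp
    | succ n ih => rw [pow_succ, mul_assoc, h, ih]
  unfold avg
  simp only [smul_mul_assoc, add_mul, one_mul, h, hp]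
  module

lemma avg_idem {x : R} (h : x ^ 5 = 1) : avg x * avg x = avg x := avg_mul_of_fix (mul_avg h)

lemma commute_avg {x y : R} (h : Commute y x) : Commute y (avg x) := by
  unfold avg
  exact (((((Commute.one_right y).add_right h).add_right (h.pow_right 2)).add_right
    (h.pow_right 3)).add_right (h.pow_right 4)).smul_right _

lemma avg_pow_four {w : R} (h : w ^ 5 = 1) : avg (w ^ 4) = avg w := by
  unfold avg
  have h2 : (w ^ 4) ^ 2 = w ^ 3 := by rw [← pow_mul, show 4 * 2 = 5 + 3 by rfl, pow_add, h, one_mul]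
  have h3 : (w ^ 4) ^ 3 = w ^ 2 := by
    rw [← pow_mul, show 4 * 3 = 5 * 2 + 2 by rfl, pow_add, pow_mul, h, one_pow, one_mul]
  have h4 : (w ^ 4) ^ 4 = w := by
    rw [← pow_mul, show 4 * 4 = 5 * 3 + 1 by rfl, pow_add, pow_mul, h, one_pow, one_mul, pow_one]
  rw [h2, h3, h4]
  congr 1
  abel

lemma heis_pow {a b w : R} (hab : a * b = w * b * a) (hwb : Commute w b) (j : ℕ) :
    a * b ^ j = w ^ j * b ^ j * a := by
  induction j with
  | zero => simp
  | succ j ih =>
    rw [pow_succ b, ← mul_assoc, ih, mul_assoc _ a, hab, pow_succ w]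
    have : b ^ j * w = w * b ^ j := ((hwb.pow_right j).eq).symm
    simp only [← mul_assoc]
    rw [mul_assoc (w ^ j) (b ^ j) w, this, ← mul_assoc]

lemma heis_five {a b w : R} (ha : a ^ 5 = 1) (hb : b ^ 5 = 1) (hab : a * b = w * b * a)
    (hwb : Commute w b) : w ^ 5 = 1 := by
  have := heis_pow hab hwb 5
  rw [hb, mul_one, mul_one] at this
  have h2 : a * a ^ 4 = 1 := by rw [← pow_succ', ha]
  calc w ^ 5 = w ^ 5 * a * a ^ 4 := by rw [mul_assoc, h2, mul_one]
    _ = 1 := by rw [← this, h2]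

lemma heis_comm {a b w : R} (hw : w ^ 5 = 1) (hab : a * b = w * b * a) (hwa : Commute w a)
    (hwb : Commute w b) : avg w * avg a * avg b = avg w * avg b * avg a := by
  have hRa : Commute a (avg w) := commute_avg hwa.symm
  have hRb : Commute b (avg w) := commute_avg hwb.symm
  have h1 : Commute a (avg w * b) := by
    show a * (avg w * b) = avg w * b * a
    rw [← mul_assoc, hRa.eq, mul_assoc, hab, ← mul_assoc, ← mul_assoc, avg_mul hw]
  have h2 : Commute (avg w * b) (avg a) := commute_avg h1.symm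
  have hRP : Commute (avg w) (avg a) := commute_avg hRa.symm
  have h3 : Commute b (avg w * avg a) := by
    show b * (avg w * avg a) = avg w * avg a * b
    rw [← mul_assoc, hRb.eq, h2.eq, ← mul_assoc, ← hRP.eq]
  have h4 : Commute (avg w * avg a) (avg b) := commute_avg h3.symm
  have hRQ : Commute (avg w) (avg b) := commute_avg hRb.symm
  rw [h4.eq, ← mul_assoc, ← hRQ.eq]

lemma heis_main {a b w : R} (ha : a ^ 5 = 1) (hw : w ^ 5 = 1) (hab : a * b = w * b * a)
    (hwa : Commute w a) (hwb : Commute w b) :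
    (1 - avg w) * (avg a * avg b * avg a) = (1 / 5 : ℝ) • ((1 - avg w) * avg a) := by
  have hP : Commute w (avg a) := commute_avg hwa
  have key : ∀ j : ℕ, w ^ j * (avg a * b ^ j * avg a) = avg a * b ^ j * avg a := by
    intro j
    calc w ^ j * (avg a * b ^ j * avg a) = avg a * (w ^ j * b ^ j * a) * avg a := by
          have h1 : avg a * (w ^ j * b ^ j * a) * avg a = avg a * w ^ j * b ^ j * (a * avg a) := by
            simp only [mul_assoc]
          rw [h1, mul_avg ha, ← (hP.pow_left j).eq]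
          simp only [mul_assoc]
      _ = avg a * b ^ j * avg a := by rw [← heis_pow hab hwb, ← mul_assoc, avg_mul ha]
  have fix : ∀ (j m : ℕ) (X : R), w ^ j * X = X → w ^ (j * m) * X = X := by
    intro j m X h
    induction m with
    | zero => simp
    | succ m ih => rw [Nat.mul_succ, pow_add, mul_assoc, h, ih]
  have red : ∀ (j m q : ℕ), j * m = 5 * q + 1 →
      (1 - avg w) * (avg a * b ^ j * avg a) = 0 := by
    intro j m q hq
    have := fix j m _ (key j)
    rw [hq, pow_add, pow_mul, hw, one_pow, one_mul, pow_one] at this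
    rw [sub_mul, one_mul, avg_mul_of_fix this, sub_self]
  have r1 := red 1 1 0 rfl
  have r2 := red 2 3 1 rfl
  have r3 := red 3 2 1 rfl
  have r4 := red 4 4 3 rfl
  rw [pow_one] at r1
  have e : avg a * avg b * avg a = (1 / 5 : ℝ) • (avg a * avg a + avg a * b * avg a +
      avg a * b ^ 2 * avg a + avg a * b ^ 3 * avg a + avg a * b ^ 4 * avg a) := by
    conv_lhs => rw [show avg b = (1 / 5 : ℝ) • (1 + b + b ^ 2 + b ^ 3 + b ^ 4) from rfl]
    simp only [mul_smul_comm, smul_mul_assoc, mul_add, add_mul, mul_one]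
  rw [e, mul_smul_comm]
  simp only [mul_add, r1, r2, r3, r4, add_zero, avg_idem ha]

end ring

section form
variable {W : Type*} [AddCommGroup W] [Module ℝ W] (β : W →ₗ[ℝ] W →ₗ[ℝ] ℝ)

lemma pair_low (hs : ∀ v w, β v w = β w v) (hp : ∀ v, 0 ≤ β v v) (P Q : Module.End ℝ W)
    (hP : ∀ v, P (P v) = P v) (hQ : ∀ v, Q (Q v) = Q v)
    (sP : ∀ v w, β (P v) w = β v (P w)) (sQ : ∀ v w, β (Q v) w = β v (Q w)) (v : W)
    (h1 : P (Q (P v)) = (1 / 5 : ℝ) • P v) (h2 : Q (P (Q v)) = (1 / 5 : ℝ) • Q v) :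
    0 ≤ 2 * β (v - P v) (v - Q v) + 5 / 11 * (β (v - P v) (v - P v) + β (v - Q v) (v - Q v)) := by
  have e1 : β (P v) (P v) = β v (P v) := by rw [sP, hP]
  have e2 : β (Q v) (Q v) = β v (Q v) := by rw [sQ, hQ]
  have e3 : β v (P (Q v)) = β (P v) (Q v) := by rw [sP]
  have e4 : β v (Q (P v)) = β (P v) (Q v) := by rw [← sQ, hs]
  have e5 : β (P v) (P (Q v)) = β (P v) (Q v) := by rw [← sP, hP]
  have e6 : β (Q v) (Q (P v)) = β (P v) (Q v) := by rw [← sQ, hQ, hs]
  have e7 : β (Q v) (P (Q v)) = 1 / 5 * β v (Q v) := by rw [sQ, h2]; simp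
  have e8 : β (P v) (Q (P v)) = 1 / 5 * β v (P v) := by rw [sP, h1]; simp
  have e9 : β (P (Q v)) (P (Q v)) = 1 / 5 * β v (Q v) := by rw [sP, hP, e7]
  have e10 : β (Q (P v)) (Q (P v)) = 1 / 5 * β v (P v) := by rw [sQ, hQ, e8]
  have e11 : β (P (Q v)) (Q (P v)) = 1 / 5 * β (P v) (Q v) := by rw [sP, h1, hs]; simp
  have i1 := hp ((4 / 5 : ℝ) • v - P v - Q v + P (Q v) + Q (P v))
  have i2 := hp ((9 / 20 : ℝ) • P v - P (Q v))
  have i3 := hp ((9 / 20 : ℝ) • Q v - Q (P v))
  have i4 := hp (P v)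
  have i5 := hp (Q v)
  simp only [map_add, map_sub, map_smul, LinearMap.add_apply, LinearMap.sub_apply,
    LinearMap.smul_apply, smul_eq_mul] at i1 i2 i3 ⊢
  simp only [hs (P v) v, hs (Q v) v, hs (P (Q v)) v, hs (Q (P v)) v, hs (Q v) (P v),
    hs (P (Q v)) (P v), hs (Q (P v)) (P v), hs (P (Q v)) (Q v), hs (Q (P v)) (Q v),
    hs (Q (P v)) (P (Q v)), e1, e2, e3, e4, e5, e6, e7, e8, e9, e10, e11] at i1 i2 i3 i4 i5 ⊢
  linarith

lemma pair_high (hs : ∀ v w, β v w = β w v) (hp : ∀ v, 0 ≤ β v v) (P Q : Module.End ℝ W)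
    (hP : ∀ v, P (P v) = P v) (hQ : ∀ v, Q (Q v) = Q v)
    (sP : ∀ v w, β (P v) w = β v (P w)) (sQ : ∀ v w, β (Q v) w = β v (Q w)) (v : W)
    (h : P (Q v) = Q (P v)) : 0 ≤ β (v - P v) (v - Q v) := by
  have i1 := hp (v - P v - Q v + P (Q v))
  have e1 : β (P v) (P v) = β v (P v) := by rw [sP, hP]
  have e2 : β (Q v) (Q v) = β v (Q v) := by rw [sQ, hQ]
  have e3 : β v (P (Q v)) = β (P v) (Q v) := by rw [sP]
  have e5 : β (P v) (P (Q v)) = β (P v) (Q v) := by rw [← sP, hP]
  have e6 : β (Q v) (P (Q v)) = β (P v) (Q v) := by rw [h, ← sQ, hQ, hs]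
  have e7 : β (P (Q v)) (P (Q v)) = β (P v) (Q v) := by rw [sP, hP, e6]
  simp only [map_add, map_sub, LinearMap.add_apply, LinearMap.sub_apply] at i1 ⊢
  simp only [hs (P v) v, hs (Q v) v, hs (P (Q v)) v, hs (Q v) (P v),
    hs (P (Q v)) (P v), hs (P (Q v)) (Q v), e1, e2, e3, e5, e6, e7] at i1 ⊢
  linarith

variable {G : Type*} [Group G] (σ : G →* Module.End ℝ W)

lemma sym_avg (hσ : ∀ g v w, β (σ g v) (σ g w) = β v w) {g : G} (hg : g ^ 5 = 1) (v w : W) :
    β (avg (σ g) v) w = β v (avg (σ g) w) := by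
  have key : ∀ i j : ℕ, i + j = 5 → β ((σ g ^ i) v) w = β v ((σ g ^ j) w) := by
    intro i j hij
    rw [← hσ (g ^ j), ← map_pow, ← map_pow, ← Module.End.mul_apply, ← map_mul, ← pow_add,
      add_comm, hij, hg, map_one, Module.End.one_apply]
  have k1 := key 1 4 rfl
  have k4 := key 4 1 rfl
  rw [pow_one] at k1 k4
  simp only [avg, map_add, map_smul, LinearMap.add_apply, LinearMap.smul_apply,
    Module.End.one_apply, smul_eq_mul, k1, k4, key 2 3 rfl, key 3 2 rfl]
  ring

/-- two elements of order five generating a quotient of the Heisenberg group -/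
def Heis (a b : G) : Prop := Commute (a * b * a⁻¹ * b⁻¹) a ∧ Commute (a * b * a⁻¹ * b⁻¹) b

lemma pair_ineq (hs : ∀ v w, β v w = β w v) (hp : ∀ v, 0 ≤ β v v)
    (hσ : ∀ g v w, β (σ g v) (σ g w) = β v w) {a b : G} (ha : a ^ 5 = 1) (hb : b ^ 5 = 1)
    (h : Heis a b) (v : W) :
    0 ≤ 2 * β (v - avg (σ a) v) (v - avg (σ b) v) +
      5 / 11 * (β (v - avg (σ a) v) (v - avg (σ a) v) + β (v - avg (σ b) v) (v - avg (σ b) v)) := by
  unfold Heis at h
  set w := a * b * a⁻¹ * b⁻¹ with hwdef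
  have hab : a * b = w * b * a := by rw [hwdef]; group
  have ha' : σ a ^ 5 = 1 := by rw [← map_pow, ha, map_one]
  have hb' : σ b ^ 5 = 1 := by rw [← map_pow, hb, map_one]
  have hab' : σ a * σ b = σ w * σ b * σ a := by rw [← map_mul, hab, map_mul, map_mul]
  have hwa : Commute (σ w) (σ a) := h.1.map σ
  have hwb : Commute (σ w) (σ b) := h.2.map σ
  have hw' : σ w ^ 5 = 1 := heis_five ha' hb' hab' hwb
  have hw : w ^ 5 = 1 := by
    have h1 : ∀ j : ℕ, a * b ^ j = w ^ j * b ^ j * a := by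
      intro j
      induction j with
      | zero => simp
      | succ j ih =>
        rw [pow_succ b, ← mul_assoc, ih, mul_assoc _ a, hab, pow_succ w]
        have : b ^ j * w = w * b ^ j := ((h.2.pow_right j).eq).symm
        simp only [← mul_assoc]
        rw [mul_assoc (w ^ j) (b ^ j) w, this, ← mul_assoc]
    have := h1 5
    rw [hb, mul_one, mul_one] at this
    exact mul_right_cancel (this.symm.trans (one_mul a).symm)
  have hba' : σ b * σ a = σ w ^ 4 * σ a * σ b := by
    rw [mul_assoc, hab', ← mul_assoc, ← mul_assoc, ← pow_succ, hw', one_mul]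
  have m1 := heis_main ha' hw' hab' hwa hwb
  have m2 := heis_main hb' (by rw [← pow_mul, mul_comm, pow_mul, hw', one_pow]) hba'
    (hwb.pow_left 4) (hwa.pow_left 4)
  rw [avg_pow_four hw'] at m2
  have m3 := heis_comm hw' hab' hwa hwb
  set P := avg (σ a)
  set Q := avg (σ b)
  set R := avg (σ w)
  have hRP : Commute R P := commute_avg (commute_avg hwa.symm).symm
  have hRQ : Commute R Q := commute_avg (commute_avg hwb.symm).symm
  have hP : ∀ v, P (P v) = P v := fun v => LinearMap.congr_fun (avg_idem ha') v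
  have hQ : ∀ v, Q (Q v) = Q v := fun v => LinearMap.congr_fun (avg_idem hb') v
  have hR : ∀ v, R (R v) = R v := fun v => LinearMap.congr_fun (avg_idem hw') v
  have cP : ∀ v, R (P v) = P (R v) := fun v => LinearMap.congr_fun hRP.eq v
  have cQ : ∀ v, R (Q v) = Q (R v) := fun v => LinearMap.congr_fun hRQ.eq v
  have sP : ∀ v w, β (P v) w = β v (P w) := sym_avg β σ hσ ha
  have sQ : ∀ v w, β (Q v) w = β v (Q w) := sym_avg β σ hσ hb
  have sR : ∀ v w, β (R v) w = β v (R w) := sym_avg β σ hσ hw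
  have hi := pair_high β hs hp P Q hP hQ sP sQ (R v) (by
    have := LinearMap.congr_fun m3 v
    simpa only [Module.End.mul_apply, cP, cQ] using this)
  have lo := pair_low β hs hp P Q hP hQ sP sQ (v - R v) (by
    have := LinearMap.congr_fun m1 v
    simpa only [Module.End.mul_apply, LinearMap.sub_apply, Module.End.one_apply,
      LinearMap.smul_apply, cP, cQ, map_sub] using this) (by
    have := LinearMap.congr_fun m2 v
    simpa only [Module.End.mul_apply, LinearMap.sub_apply, Module.End.one_apply,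
      LinearMap.smul_apply, cP, cQ, map_sub] using this)
  have split : ∀ x y, β x y = β (R x) (R y) + β (x - R x) (y - R y) := by
    intro x y
    simp only [map_sub, LinearMap.sub_apply, sR, hR]
    ring
  have f1 : ∀ X : Module.End ℝ W, (∀ v, R (X v) = X (R v)) →
      R (v - X v) = R v - X (R v) ∧ v - X v - (R v - X (R v)) = v - R v - X (v - R v) := by
    intro X hX
    refine ⟨by rw [map_sub, hX], by rw [map_sub]; abel⟩
  rw [split (v - P v) (v - Q v), split (v - P v) (v - P v), split (v - Q v) (v - Q v),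
    (f1 P cP).1, (f1 Q cQ).1, (f1 P cP).2, (f1 Q cQ).2]
  have := hp (R v - P (R v))
  have := hp (R v - Q (R v))
  linarith

/-- the Laplacian built from three averages -/
noncomputable def lap (a b e : G) : Module.End ℝ W :=
  (1 - avg (σ a)) + (1 - avg (σ b)) + (1 - avg (σ e))

lemma self_form (hσ : ∀ g v w, β (σ g v) (σ g w) = β v w) {g : G} (hg : g ^ 5 = 1) (v : W) :
    β (v - avg (σ g) v) v = β (v - avg (σ g) v) (v - avg (σ g) v) := by
  have hg' : σ g ^ 5 = 1 := by rw [← map_pow, hg, map_one]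
  have hP : avg (σ g) (avg (σ g) v) = avg (σ g) v := LinearMap.congr_fun (avg_idem hg') v
  simp only [map_sub, LinearMap.sub_apply, sym_avg β σ hσ hg, hP]
  ring

lemma lap_form (hσ : ∀ g v w, β (σ g v) (σ g w) = β v w) {a b e : G} (ha : a ^ 5 = 1)
    (hb : b ^ 5 = 1) (he : e ^ 5 = 1) (v : W) :
    β (lap σ a b e v) v = β (v - avg (σ a) v) (v - avg (σ a) v) +
      β (v - avg (σ b) v) (v - avg (σ b) v) + β (v - avg (σ e) v) (v - avg (σ e) v) := by
  rw [← self_form β σ hσ ha, ← self_form β σ hσ hb, ← self_form β σ hσ he]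
  simp only [lap, LinearMap.add_apply, LinearMap.sub_apply, Module.End.one_apply, map_add]

/-- spectral gap -/
theorem lap_gap (hs : ∀ v w, β v w = β w v) (hp : ∀ v, 0 ≤ β v v)
    (hσ : ∀ g v w, β (σ g v) (σ g w) = β v w) {a b e : G} (ha : a ^ 5 = 1)
    (hb : b ^ 5 = 1) (he : e ^ 5 = 1) (h1 : Heis a b) (h2 : Heis b e) (h3 : Heis e a) (v : W) :
    1 / 11 * β (lap σ a b e v) v ≤ β (lap σ a b e v) (lap σ a b e v) := by
  have p1 := pair_ineq β σ hs hp hσ ha hb h1 v
  have p2 := pair_ineq β σ hs hp hσ hb he h2 v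
  have p3 := pair_ineq β σ hs hp hσ he ha h3 v
  rw [lap_form β σ hσ ha hb he]
  have e0 : lap σ a b e v = (v - avg (σ a) v) + (v - avg (σ b) v) + (v - avg (σ e) v) := rfl
  rw [e0]
  generalize v - avg (σ a) v = x at *
  generalize v - avg (σ b) v = y at *
  generalize v - avg (σ e) v = z at *
  simp only [map_add, LinearMap.add_apply]
  linarith [hs y x, hs z y, hs x z]

lemma fix_of_form (hp : ∀ v, 0 ≤ β v v) (hd : ∀ v, β v v = 0 → v = 0)
    (hσ : ∀ g v w, β (σ g v) (σ g w) = β v w) {a b e : G} (ha : a ^ 5 = 1)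
    (hb : b ^ 5 = 1) (he : e ^ 5 = 1) (v : W) (h : β (lap σ a b e v) v = 0) :
    σ a v = v ∧ σ b v = v ∧ σ e v = v := by
  rw [lap_form β σ hσ ha hb he] at h
  have p1 := hp (v - avg (σ a) v)
  have p2 := hp (v - avg (σ b) v)
  have p3 := hp (v - avg (σ e) v)
  have key : ∀ g : G, g ^ 5 = 1 → β (v - avg (σ g) v) (v - avg (σ g) v) = 0 → σ g v = v := by
    intro g hg h0
    have hg' : σ g ^ 5 = 1 := by rw [← map_pow, hg, map_one]
    have h1 : v = avg (σ g) v := sub_eq_zero.1 (hd _ h0)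
    have h2 : σ g (avg (σ g) v) = avg (σ g) v := LinearMap.congr_fun (mul_avg hg') v
    rwa [← h1] at h2
  exact ⟨key a ha (by linarith), key b hb (by linarith), key e he (by linarith)⟩

lemma avg_fix {g : G} {v : W} (h : σ g v = v) : avg (σ g) v = v := by
  have hp : ∀ n : ℕ, (σ g ^ n) v = v := by
    intro n
    induction n with
    | zero => simp
    | succ n ih => rw [pow_succ, Module.End.mul_apply, h, ih]
  simp only [avg, LinearMap.smul_apply, LinearMap.add_apply, Module.End.one_apply, h, hp]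
  module

lemma lap_fix {a b e : G} {v : W} (h1 : σ a v = v) (h2 : σ b v = v) (h3 : σ e v = v) :
    lap σ a b e v = 0 := by
  simp [lap, avg_fix σ h1, avg_fix σ h2, avg_fix σ h3]

end form

end Pool.Agent.H66Z.MF
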