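import Pool.Agent.H66Z.MF.Ultra
import Pool.Agent.H66Z.MF.HS

set_option autoImplicit false

open scoped InnerProductSpace RealInnerProductSpace Matrix.Norms.L2Operator
open Matrix Filter Topology

namespace Pool.Agent.H66Z.MF

section rel
variable {G : Type*} [Group G]

/-- commutator -/
def cm (x y : G) : G := x * y * x⁻¹ * y⁻¹

/-- the word that squares the parameter of an elementary matrix -/
def ep (a b e : G) : G := cm (cm e a) (cm b e)

/-- the exact relations -/
structure Rel (a b e t c d z : G) : Prop where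
  a5 : a ^ 5 = 1
  b5 : b ^ 5 = 1
  e5 : e ^ 5 = 1
  hab : Heis a b
  hbe : Heis b e
  hea : Heis e a
  ta : Commute t a
  tb : Commute t b
  ca : Commute c a
  cb : Commute c b
  ce : Commute c (ep a b e)
  z2 : z * z = 1
  za : Commute z a
  zb : Commute z b
  ze : Commute z e
  zd : Commute z d
  dc : Commute d c
  dz : d * (e * c * e⁻¹) = e * c * e⁻¹ * z * d

lemma map_ep {G' : Type*} [Group G'] (f : G →* G') (a b e : G) :
    f (ep a b e) = ep (f a) (f b) (f e) := by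
  simp only [ep, cm, map_mul, map_inv]

lemma Heis.map {G' : Type*} [Group G'] (f : G →* G') {a b : G} (h : Heis a b) :
    Heis (f a) (f b) := by
  have h1 := h.1.map f
  have h2 := h.2.map f
  simp only [map_mul, map_inv] at h1 h2
  exact ⟨h1, h2⟩

lemma ep_mem (a b e : G) {K : Subgroup G} (ha : a ∈ K) (hb : b ∈ K) (he : e ∈ K) :
    ep a b e ∈ K := by
  have : ∀ x ∈ K, ∀ y ∈ K, cm x y ∈ K := fun x hx y hy =>
    K.mul_mem (K.mul_mem (K.mul_mem hx hy) (K.inv_mem hx)) (K.inv_mem hy)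
  exact this _ (this _ he _ ha) _ (this _ hb _ he)

end rel

lemma fro_conj_proj {ι : Type} [Fintype ι] [DecidableEq ι] (V : unitaryGroup ι ℂ)
    {q : Matrix ι ι ℂ} (hq : q * q = q) :
    fro (V.1 * q * (V.1)ᴴ - q) ≤ 2 * ‖V.1 * q * (V.1)ᴴ - q‖ * fro q := by
  have h1 : (V.1)ᴴ * V.1 = 1 := V.2.1
  have hV := norm_unitary_le V
  set q' := V.1 * q * (V.1)ᴴ with hq'
  have h2 : q' * q' = q' := by
    rw [hq']
    calc V.1 * q * (V.1)ᴴ * (V.1 * q * (V.1)ᴴ) = V.1 * (q * ((V.1)ᴴ * V.1) * q) * (V.1)ᴴ := by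
          simp only [mul_assoc]
      _ = _ := by rw [h1, mul_one, hq]
  have h3 : fro q' ≤ fro q := by
    refine (fro_mul_right _ _).trans ?_
    rw [l2_opNorm_conjTranspose]
    have := fro_mul_left V.1 q
    nlinarith [fro_nonneg q, fro_nonneg (V.1 * q), norm_nonneg V.1]
  have h4 : q' - q = q' * (q' - q) + (q' - q) * q := by
    rw [mul_sub, sub_mul, h2, hq]; abel
  have h5 := fro_add_le (q' * (q' - q)) ((q' - q) * q)
  rw [← h4] at h5
  have h6 := fro_mul_right q' (q' - q)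
  have h7 := fro_mul_left (q' - q) q
  nlinarith [norm_nonneg (q' - q)]

section nul
variable {k : ℕ → ℕ}

/-- operator norm null sequences -/
def Nul (f : ∀ n, Matrix (Fin (k n)) (Fin (k n)) ℂ) : Prop :=
  Tendsto (fun n => ‖f n‖) atTop (𝓝 0)

variable {f g : ∀ n, Matrix (Fin (k n)) (Fin (k n)) ℂ}

lemma Nul.of_le (hf : Nul f) (h : ∀ n, ‖g n‖ ≤ ‖f n‖) : Nul g :=
  squeeze_zero (fun _ => norm_nonneg _) h hf

lemma Nul.add (hf : Nul f) (hg : Nul g) : Nul fun n => f n + g n :=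
  squeeze_zero (fun _ => norm_nonneg _) (fun n => norm_add_le (f n) (g n))
    (by simpa using Tendsto.add hf hg)

lemma Nul.neg (hf : Nul f) : Nul fun n => - f n := hf.of_le fun n => (norm_neg _).le

lemma Nul.star (hf : Nul f) : Nul fun n => (f n)ᴴ := hf.of_le fun n =>
  (l2_opNorm_conjTranspose _).le

lemma Nul.left (hf : Nul f) (V : ∀ n, unitaryGroup (Fin (k n)) ℂ) : Nul fun n => (V n).1 * f n :=
  hf.of_le fun n => (norm_mul_le _ _).trans
    (mul_le_of_le_one_left (norm_nonneg _) (norm_unitary_le _))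

lemma Nul.right (hf : Nul f) (V : ∀ n, unitaryGroup (Fin (k n)) ℂ) : Nul fun n => f n * (V n).1 :=
  hf.of_le fun n => (norm_mul_le _ _).trans
    (mul_le_of_le_one_right (norm_nonneg _) (norm_unitary_le _))

lemma Nul.congr (hf : Nul f) (h : ∀ n, f n = g n) : Nul g := hf.of_le fun n => by rw [h n]

end nul

variable {G : Type*} [Group G] {k : ℕ → ℕ} (φ : ∀ n, G → unitaryGroup (Fin (k n)) ℂ)

lemma nul_one (hφ : ∀ g h, Nul fun n => (φ n (g * h)).1 - (φ n g).1 * (φ n h).1) :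
    Nul fun n => (φ n 1).1 - 1 := by
  refine ((hφ 1 1).neg.left fun n => (φ n 1)⁻¹).congr fun n => ?_
  have h1 : star (φ n 1).1 * (φ n 1).1 = 1 := (φ n 1).2.1
  show star (φ n 1).1 * _ = _
  rw [neg_sub, mul_one, mul_sub, ← mul_assoc, h1, one_mul]

/-- the kernel of an asymptotic homomorphism -/
def kerA (hφ : ∀ g h, Nul fun n => (φ n (g * h)).1 - (φ n g).1 * (φ n h).1) : Subgroup G where
  carrier := {g | Nul fun n => (φ n g).1 - 1}
  mul_mem' := by
    intro g h hg hh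
    have hg' : Nul fun n => (φ n g).1 - 1 := hg
    have hh' : Nul fun n => (φ n h).1 - 1 := hh
    have h1 := ((hφ g h).add (hg'.right fun n => φ n h)).add hh'
    show Nul fun n => (φ n (g * h)).1 - 1
    refine h1.congr fun n => ?_
    rw [sub_mul, one_mul]; abel
  one_mem' := by
    show Nul fun n => (φ n 1).1 - 1
    exact nul_one φ hφ
  inv_mem' := by
    intro g hg
    have hg' : Nul fun n => (φ n g).1 - 1 := hg
    have h1 := ((hφ g g⁻¹).neg.add (hg'.right fun n => φ n g⁻¹).neg).add (nul_one φ hφ)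
    show Nul fun n => (φ n g⁻¹).1 - 1
    refine h1.congr fun n => ?_
    rw [sub_mul, one_mul, mul_inv_cancel]; abel

lemma kerA_normal (hφ : ∀ g h, Nul fun n => (φ n (g * h)).1 - (φ n g).1 * (φ n h).1) :
    (kerA φ hφ).Normal := by
  refine ⟨fun x hx g => ?_⟩
  have hx' : Nul fun n => (φ n x).1 - 1 := hx
  have h1 := ((((hφ (g * x) g⁻¹).add ((hφ g x).right fun n => φ n g⁻¹)).add
    ((hx'.left fun n => φ n g).right fun n => φ n g⁻¹)).add (hφ g g⁻¹).neg).add (nul_one φ hφ)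
  show Nul fun n => (φ n (g * x * g⁻¹)).1 - 1
  refine h1.congr fun n => ?_
  rw [mul_sub, sub_mul, sub_mul, mul_one, mul_inv_cancel]; abel

/-- the two-sided multiplication operators -/
noncomputable def piLR (g : G × G) : BOp fun n => HS (Fin (k n)) :=
  ⟨fun n => LR (φ n g.1).1 ((φ n g.2).1)ᴴ, 1, fun n => (norm_LR_le _ _).trans (by
    rw [l2_opNorm_conjTranspose]
    exact mul_le_one₀ (norm_unitary_le _) (norm_nonneg _) (norm_unitary_le _))⟩

lemma nul_LR {A B A' B' : ∀ n, Matrix (Fin (k n)) (Fin (k n)) ℂ} (hA : Nul fun n => A n - A' n)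
    (hB : Nul fun n => B n - B' n) (h1 : ∀ n, ‖B n‖ ≤ 1) (h2 : ∀ n, ‖A' n‖ ≤ 1) :
    Tendsto (fun n => ‖LR (A n) (B n) - LR (A' n) (B' n)‖) atTop (𝓝 0) := by
  refine squeeze_zero (fun n => ContinuousLinearMap.opNorm_nonneg _)
    (g := fun n => ‖A n - A' n‖ + ‖B n - B' n‖)
    (fun n => (norm_LR_sub _ _ _ _).trans (add_le_add
      (mul_le_of_le_one_right (norm_nonneg _) (h1 n))
      (mul_le_of_le_one_left (norm_nonneg _) (h2 n)))) ?_
  simpa using Tendsto.add hA hB

/-- the representation of the product group on the ultraproduct -/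
noncomputable def sigLR (hφ : ∀ g h, Nul fun n => (φ n (g * h)).1 - (φ n g).1 * (φ n h).1)
    (U : Ultrafilter ℕ) (hU : (U : Filter ℕ) ≤ atTop) :
    G × G →* Module.End ℝ (UP (fun n => HS (Fin (k n))) U) where
  toFun g := Phi U (piLR φ g)
  map_one' := by
    rw [← map_one (Phi U), ← sub_eq_zero, ← map_sub, Phi_eq_zero_iff]
    have h1 : Nul fun n => ((φ n 1).1)ᴴ - 1 := (nul_one φ hφ).star.congr fun n => by simp
    have h2 := nul_LR (nul_one φ hφ) h1
      (fun n => by rw [l2_opNorm_conjTranspose]; exact norm_unitary_le _)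
      (fun n => norm_unitary_le (1 : unitaryGroup (Fin (k n)) ℂ))
    refine (h2.mono_left hU).congr fun n => ?_
    have : LR (1 : Matrix (Fin (k n)) (Fin (k n)) ℂ) 1 = 1 := by
      ext x
      apply mat.injective
      simp [mat_LR]
    rw [this]
    rfl
  map_mul' g h := by
    rw [← map_mul (Phi U), ← sub_eq_zero, ← map_sub, Phi_eq_zero_iff]
    have h1 : Nul fun n => ((φ n (g.2 * h.2)).1)ᴴ - ((φ n h.2).1)ᴴ * ((φ n g.2).1)ᴴ :=
      (hφ g.2 h.2).star.congr fun n => by simp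
    have h2 := nul_LR (hφ g.1 h.1) h1
      (fun n => by rw [l2_opNorm_conjTranspose]; exact norm_unitary_le _)
      (fun n => norm_unitary_le (φ n g.1 * φ n h.1))
    refine (h2.mono_left hU).congr fun n => ?_
    rw [← LR_mul]
    rfl

lemma exists_vec (hφ : ∀ g h, Nul fun n => (φ n (g * h)).1 - (φ n g).1 * (φ n h).1)
    (U : Ultrafilter ℕ) (hU : (U : Filter ℕ) ≤ atTop) {z : G} (hz : z * z = 1) {δ : ℝ}
    (hδ : 0 < δ) (hbig : ∀ᶠ n in U, δ ≤ ‖(φ n z).1 - 1‖) :
    ∃ ξ, ξ ≠ 0 ∧ sigLR φ hφ U hU (z, 1) ξ = -ξ ∧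
      ∀ g, Commute z g → sigLR φ hφ U hU (g, g) ξ = ξ := by
  choose s hs1 hs2 hs3 using fun n => exists_sym (φ n z)
  have n1 : Nul fun n => (φ n z).1 * (φ n z).1 - 1 := by
    have h1 := (hφ z z).neg.add (nul_one φ hφ)
    refine h1.congr fun n => ?_
    rw [hz]; abel
  have n2 : Nul fun n => (φ n z).1 - s n := n1.of_le hs3
  let q : ∀ n, Matrix (Fin (k n)) (Fin (k n)) ℂ := fun n => (1 / 2 : ℝ) • (1 - s n)
  have hq : ∀ n, q n * q n = q n := by
    intro n
    simp only [q, smul_mul_assoc, mul_smul_comm, mul_sub, sub_mul, hs2, mul_one, one_mul]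
    module
  have hsq : ∀ n, s n * q n = - q n := by
    intro n
    simp only [q, mul_smul_comm, mul_sub, hs2, mul_one]
    module
  let ξ : Bdd fun n => HS (Fin (k n)) := ⟨fun n => (fro (q n))⁻¹ • mat.symm (q n), 1, fun n => by
    rw [norm_smul, norm_inv, Real.norm_of_nonneg (fro_nonneg _)]
    exact inv_mul_le_one_of_le₀ le_rfl (norm_nonneg _)⟩
  have hnull : ∀ (v : Bdd fun n => HS (Fin (k n))) (Y : ∀ n, Matrix (Fin (k n)) (Fin (k n)) ℂ)
      (η : ℕ → ℝ), Tendsto η atTop (𝓝 0) → (∀ n, 0 ≤ η n) →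
      (∀ n, mat (v.1 n) = (fro (q n))⁻¹ • Y n) → (∀ n, fro (Y n) ≤ η n * fro (q n)) →
      v ∈ Null (fun n => HS (Fin (k n))) U := by
    intro v Y η h1 h2 h3 h4
    refine squeeze_zero (fun n => norm_nonneg _) (fun n => ?_) (h1.mono_left hU)
    have : v.1 n = (fro (q n))⁻¹ • mat.symm (Y n) := by
      apply mat.injective
      rw [h3, map_smul, LinearEquiv.apply_symm_apply]
    rw [this, norm_smul, norm_inv, Real.norm_of_nonneg (fro_nonneg _)]
    by_cases h0 : fro (q n) = 0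
    · rw [h0, _root_.inv_zero, zero_mul]; exact h2 n
    · have hpos : 0 < fro (q n) := lt_of_le_of_ne (fro_nonneg _) (Ne.symm h0)
      rw [inv_mul_le_iff₀ hpos, mul_comm]
      exact h4 n
  have hξ : ∀ n, mat (ξ.1 n) = (fro (q n))⁻¹ • q n := fun n => rfl
  refine ⟨Submodule.Quotient.mk ξ, ?_, ?_, ?_⟩
  · intro h0
    rw [Submodule.Quotient.mk_eq_zero] at h0
    have h1 : Tendsto (fun n => ‖ξ.1 n‖) U (𝓝 0) := h0
    have h2 := h1.eventually (gt_mem_nhds (show (0 : ℝ) < 1 by norm_num))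
    have h3 := (Tendsto.mono_left n2 hU).eventually (gt_mem_nhds hδ)
    obtain ⟨n, a1, a2, a3⟩ := (hbig.and (h2.and h3)).exists
    have a4 : fro (q n) ≠ 0 := by
      intro h
      have b1 : q n = 0 := by
        have := norm_eq_zero.1 h
        simpa using this
      have b2 : s n = 1 := by
        simp only [q, smul_eq_zero, sub_eq_zero] at b1
        rcases b1 with b1 | b1
        · norm_num at b1
        · exact b1.symm
      simp only [b2] at a3
      linarith
    have a5 : ‖ξ.1 n‖ = 1 := by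
      show ‖(fro (q n))⁻¹ • mat.symm (q n)‖ = 1
      rw [norm_smul, norm_inv, Real.norm_of_nonneg (fro_nonneg _)]
      exact inv_mul_cancel₀ a4
    linarith
  · show Phi U (piLR φ (z, 1)) _ = _
    rw [Phi_mk, ← Submodule.Quotient.mk_neg, Submodule.Quotient.eq]
    have h1 : Nul fun n => ((φ n 1).1)ᴴ - 1 := (nul_one φ hφ).star.congr fun n => by simp
    refine hnull _ (fun n => (φ n z).1 * q n * ((φ n 1).1)ᴴ + q n)
      (fun n => ‖((φ n 1).1)ᴴ - 1‖ + ‖(φ n z).1 - s n‖) (by simpa using Tendsto.add h1 n2)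
      (fun n => by positivity) (fun n => ?_) (fun n => ?_)
    · show mat (LR _ _ (ξ.1 n) - -ξ.1 n) = _
      rw [map_sub, map_neg, mat_LR, hξ]
      simp only [smul_add, mul_smul_comm, smul_mul_assoc, sub_neg_eq_add]
    · have e1 : (φ n z).1 * q n * ((φ n 1).1)ᴴ + q n =
          (φ n z).1 * q n * (((φ n 1).1)ᴴ - 1) + ((φ n z).1 - s n) * q n := by
        rw [mul_sub, sub_mul, hsq, mul_one]; abel
      rw [e1, add_mul]
      refine (fro_add_le _ _).trans (add_le_add ((fro_mul_right _ _).trans ?_) (fro_mul_left _ _))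
      refine mul_le_mul_of_nonneg_left ((fro_mul_left _ _).trans ?_) (norm_nonneg _)
      exact mul_le_of_le_one_left (fro_nonneg _) (norm_unitary_le _)
  · intro g hg
    show Phi U (piLR φ (g, g)) _ = _
    rw [Phi_mk, Submodule.Quotient.eq]
    have h1 : Nul fun n => (φ n g).1 * s n * ((φ n g).1)ᴴ - s n := by
      have h2 := ((((n2.neg.left fun n => φ n g).add (hφ g z).neg).add (hφ z g)).right
        fun n => (φ n g)⁻¹).add n2
      refine h2.congr fun n => ?_
      have h3 : (φ n g).1 * ((φ n g).1)ᴴ = 1 := (φ n g).2.2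
      show _ * ((φ n g).1)ᴴ + _ = _
      rw [hg.eq]
      simp only [neg_sub, mul_sub, add_mul, sub_mul, mul_assoc, h3, mul_one]
      abel
    have h2 : Nul fun n => (φ n g).1 * q n * ((φ n g).1)ᴴ - q n := by
      refine h1.of_le fun n => ?_
      have h3 : (φ n g).1 * ((φ n g).1)ᴴ = 1 := (φ n g).2.2
      have : (φ n g).1 * q n * ((φ n g).1)ᴴ - q n =
          (-1 / 2 : ℝ) • ((φ n g).1 * s n * ((φ n g).1)ᴴ - s n) := by
        simp only [q, mul_smul_comm, smul_mul_assoc, mul_sub, sub_mul, mul_one, h3]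
        module
      rw [this, norm_smul]
      refine mul_le_of_le_one_left (norm_nonneg _) ?_
      rw [Real.norm_eq_abs, abs_le]
      constructor <;> norm_num
    refine hnull _ (fun n => (φ n g).1 * q n * ((φ n g).1)ᴴ - q n)
      (fun n => 2 * ‖(φ n g).1 * q n * ((φ n g).1)ᴴ - q n‖)
      (by simpa using Tendsto.const_mul 2 h2)
      (fun n => by positivity) (fun n => ?_) (fun n => fro_conj_proj _ (hq n))
    show mat (LR _ _ (ξ.1 n) - ξ.1 n) = _
    rw [map_sub, mat_LR, hξ]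
    simp only [smul_sub, mul_smul_comm, smul_mul_assoc]

theorem kill (hφ : ∀ g h, Nul fun n => (φ n (g * h)).1 - (φ n g).1 * (φ n h).1)
    {a b e t c d z : G} (hR : Rel a b e t c d z) (hte : t * e * t⁻¹ = ep a b e) :
    z ∈ kerA φ hφ := by
  show Tendsto (fun n => ‖(φ n z).1 - 1‖) atTop (𝓝 0)
  by_contra hcon
  obtain ⟨δ, hδ, hfr⟩ : ∃ δ : ℝ, 0 < δ ∧ ∃ᶠ n in atTop, δ ≤ ‖(φ n z).1 - 1‖ := by
    by_contra h
    push Not at h
    refine hcon (Metric.tendsto_nhds.2 fun ε hε => ?_)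
    filter_upwards [h ε hε] with n hn
    simpa using hn
  haveI := frequently_iff_neBot.1 hfr
  obtain ⟨U, hU⟩ := Ultrafilter.exists_le (atTop ⊓ 𝓟 {n | δ ≤ ‖(φ n z).1 - 1‖})
  have hU1 : (U : Filter ℕ) ≤ atTop := hU.trans inf_le_left
  have hU2 : ∀ᶠ n in U, δ ≤ ‖(φ n z).1 - 1‖ := le_principal_iff.1 (hU.trans inf_le_right)
  obtain ⟨ξ, h0, h1, h2⟩ := exists_vec φ hφ U hU1 hR.z2 hδ hU2
  set σ := sigLR φ hφ U hU1 with hσ
  let Δ : G →* G × G := (MonoidHom.id G).prod (MonoidHom.id G)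
  have hΔ : ∀ g, Δ g = (g, g) := fun g => rfl
  have comp : ∀ (x y : G × G) v, σ x (σ y v) = σ (x * y) v := fun x y v => by
    rw [map_mul, Module.End.mul_apply]
  have hw : ∀ g, Commute c g → Commute z g → σ (g, g) (σ (c, 1) ξ) = σ (c, 1) ξ := by
    intro g hc hz
    conv_rhs => rw [← h2 g hz]
    rw [comp, comp, Prod.mk_mul_mk, Prod.mk_mul_mk, hc.eq, mul_one, one_mul]
  have hze : Commute z (ep a b e) := by
    have := ep_mem a b e (K := Subgroup.centralizer {z})
      (Subgroup.mem_centralizer_singleton_iff.2 hR.za.eq.symm)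
      (Subgroup.mem_centralizer_singleton_iff.2 hR.zb.eq.symm)
      (Subgroup.mem_centralizer_singleton_iff.2 hR.ze.eq.symm)
    exact (Subgroup.mem_centralizer_singleton_iff.1 this).symm
  have ta : Δ t * Δ a * (Δ t)⁻¹ = Δ a := by
    rw [← map_mul, hR.ta.eq, map_mul, mul_inv_cancel_right]
  have tb : Δ t * Δ b * (Δ t)⁻¹ = Δ b := by
    rw [← map_mul, hR.tb.eq, map_mul, mul_inv_cancel_right]
  have te : Δ t * Δ e * (Δ t)⁻¹ = Δ (ep a b e) := by
    rw [← hte, map_mul, map_mul, map_inv]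
  have ma : Δ a ∈ Subgroup.closure {Δ a, Δ b, Δ e} := Subgroup.subset_closure (by simp)
  have mb : Δ b ∈ Subgroup.closure {Δ a, Δ b, Δ e} := Subgroup.subset_closure (by simp)
  have me : Δ e ∈ Subgroup.closure {Δ a, Δ b, Δ e} := Subgroup.subset_closure (by simp)
  have k1 := key U (piLR φ) σ (fun g => rfl)
    (fun g n v w => LR_iso (φ n g.1).2.1 (by
      rw [conjTranspose_conjTranspose]; exact (φ n g.2).2.1) v w)
    (a := Δ a) (b := Δ b) (e := Δ e) (t := Δ t)
    (by rw [← map_pow, hR.a5, map_one]) (by rw [← map_pow, hR.b5, map_one])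
    (by rw [← map_pow, hR.e5, map_one]) (hR.hab.map Δ) (hR.hbe.map Δ) (hR.hea.map Δ)
    (by rw [ta]; exact ma) (by rw [tb]; exact mb)
    (by rw [te, map_ep]; exact ep_mem _ _ _ ma mb me) (σ (c, 1) ξ)
    (by rw [ta]; exact hw a hR.ca hR.za) (by rw [tb]; exact hw b hR.cb hR.zb)
    (by rw [te]; exact hw _ hR.ce hze)
  have k2 : σ (e * c * e⁻¹, 1) ξ = σ (c, 1) ξ := by
    rw [← k1, hΔ]
    conv_lhs => rw [← h2 e hR.ze]
    rw [comp, comp, Prod.mk_mul_mk, Prod.mk_mul_mk, inv_mul_cancel_right, mul_one, one_mul]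
  have k3 := hw d hR.dc.symm hR.zd
  have k4 : σ (d, d) (σ (e * c * e⁻¹, 1) ξ) = - σ (e * c * e⁻¹, 1) ξ := by
    rw [← map_neg, ← h1]
    conv_rhs => rw [← h2 d hR.zd]
    rw [comp, comp, comp, Prod.mk_mul_mk, Prod.mk_mul_mk, Prod.mk_mul_mk, hR.dz]
    simp only [mul_one, one_mul]
  rw [k2, k3] at k4
  have k5 : σ (c, 1) ξ = 0 := by
    have : (2 : ℝ) • σ (c, 1) ξ = 0 := by rw [two_smul]; exact add_eq_zero_iff_eq_neg.2 k4
    simpa using this
  have k6 := congrArg (σ (c, 1)⁻¹) k5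
  rw [comp, inv_mul_cancel, map_one, map_zero] at k6
  exact h0 k6

end Pool.Agent.H66Z.MF
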