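import Pool.Agent.H66Z.MF.Kill

set_option autoImplicit false

open Equiv

namespace Pool.Agent.H66Z.MF

lemma Rel.transfer {F G I : Type*} [Group F] [Group G] {P : I → Type*} [∀ i, Group (P i)]
    (p : F →* G) (ψ : ∀ i, F →* P i) (h : ∀ x y, (∀ i, ψ i x = ψ i y) → p x = p y)
    {a b e t c d z : F}
    (hR : ∀ i, Rel (ψ i a) (ψ i b) (ψ i e) (ψ i t) (ψ i c) (ψ i d) (ψ i z)) :
    Rel (p a) (p b) (p e) (p t) (p c) (p d) (p z) := by
  have hc : ∀ x y : F, (∀ i, Commute (ψ i x) (ψ i y)) → Commute (p x) (p y) := by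
    intro x y hxy
    have := h (x * y) (y * x) fun i => by rw [map_mul, map_mul, (hxy i).eq]
    rwa [map_mul, map_mul] at this
  have h5 : ∀ x : F, (∀ i, ψ i x ^ 5 = 1) → p x ^ 5 = 1 := by
    intro x hx
    have := h (x ^ 5) 1 fun i => by rw [map_pow, map_one, hx]
    rwa [map_pow, map_one] at this
  have hH : ∀ x y : F, (∀ i, Heis (ψ i x) (ψ i y)) → Heis (p x) (p y) := by
    intro x y hxy
    have h1 := hc (x * y * x⁻¹ * y⁻¹) x fun i => by simpa only [map_mul, map_inv] using (hxy i).1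
    have h2 := hc (x * y * x⁻¹ * y⁻¹) y fun i => by simpa only [map_mul, map_inv] using (hxy i).2
    simp only [map_mul, map_inv] at h1 h2
    exact ⟨h1, h2⟩
  refine ⟨h5 _ fun i => (hR i).a5, h5 _ fun i => (hR i).b5, h5 _ fun i => (hR i).e5,
    hH _ _ fun i => (hR i).hab, hH _ _ fun i => (hR i).hbe, hH _ _ fun i => (hR i).hea,
    hc _ _ fun i => (hR i).ta, hc _ _ fun i => (hR i).tb, hc _ _ fun i => (hR i).ca,
    hc _ _ fun i => (hR i).cb, ?_, ?_, hc _ _ fun i => (hR i).za, hc _ _ fun i => (hR i).zb,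
    hc _ _ fun i => (hR i).ze, hc _ _ fun i => (hR i).zd, hc _ _ fun i => (hR i).dc, ?_⟩
  · rw [← map_ep]
    exact hc _ _ fun i => by rw [map_ep]; exact (hR i).ce
  · have := h (z * z) 1 fun i => by rw [map_mul, map_one, (hR i).z2]
    rwa [map_mul, map_one] at this
  · have := h (d * (e * c * e⁻¹)) (e * c * e⁻¹ * z * d) fun i => by
      simpa only [map_mul, map_inv] using (hR i).dz
    simpa only [map_mul, map_inv] using this

lemma Rel.with_t {G : Type*} [Group G] {a b e t t' c d z : G} (h : Rel a b e t c d z)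
    (ha : Commute t' a) (hb : Commute t' b) : Rel a b e t' c d z :=
  { h with ta := ha, tb := hb }

lemma Rel.inv {G : Type*} [Group G] {a b e t c d z : G} (h : Rel a b e t c d z) :
    Rel a⁻¹ b⁻¹ 1 t⁻¹ c⁻¹ d⁻¹ 1 := by
  have h1 : a⁻¹ * b⁻¹ * a⁻¹⁻¹ * b⁻¹⁻¹ = a * b * a⁻¹ * b⁻¹ := by
    have e1 : a⁻¹ * b⁻¹ * a⁻¹⁻¹ * b⁻¹⁻¹ = (b * a)⁻¹ * (a * b * a⁻¹ * b⁻¹ * (b * a)) := by group
    rw [e1, (h.hab.2.mul_right h.hab.1).eq, inv_mul_cancel_left]
  refine ⟨by rw [inv_pow, h.a5, inv_one], by rw [inv_pow, h.b5, inv_one], one_pow _,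
    ⟨by rw [h1]; exact h.hab.1.inv_right, by rw [h1]; exact h.hab.2.inv_right⟩,
    by simp [Heis], by simp [Heis], h.ta.inv_inv, h.tb.inv_inv, h.ca.inv_inv, h.cb.inv_inv,
    by simp [ep, cm], by simp, by simp, by simp, by simp, by simp, h.dc.inv_inv, ?_⟩
  simpa using h.dc.inv_inv.eq

lemma Rel.one {G : Type*} [Group G] : Rel (1 : G) 1 1 1 1 1 1 := by
  constructor <;> simp [Heis, ep, cm]

section elem
variable {V : Type} [AddCommGroup V]

/-- first elementary transformation -/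
def pa : Perm (V × V × V) where
  toFun x := (x.1 + x.2.1, x.2.1, x.2.2)
  invFun x := (x.1 - x.2.1, x.2.1, x.2.2)
  left_inv x := by simp
  right_inv x := by simp

/-- second elementary transformation -/
def pb : Perm (V × V × V) where
  toFun x := (x.1, x.2.1 + x.2.2, x.2.2)
  invFun x := (x.1, x.2.1 - x.2.2, x.2.2)
  left_inv x := by simp
  right_inv x := by simp

/-- third elementary transformation, with a parameter -/
def pe (s : V →+ V) : Perm (V × V × V) where
  toFun x := (x.1, x.2.1, x.2.2 + s x.1)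
  invFun x := (x.1, x.2.1, x.2.2 - s x.1)
  left_inv x := by simp
  right_inv x := by simp

@[simp] lemma pa_apply (x : V × V × V) : pa x = (x.1 + x.2.1, x.2.1, x.2.2) := rfl
@[simp] lemma pb_apply (x : V × V × V) : pb x = (x.1, x.2.1 + x.2.2, x.2.2) := rfl
@[simp] lemma pe_apply (s : V →+ V) (x : V × V × V) : pe s x = (x.1, x.2.1, x.2.2 + s x.1) := rfl
@[simp] lemma pa_inv (x : V × V × V) : (pa⁻¹ : Perm _) x = (x.1 - x.2.1, x.2.1, x.2.2) := rfl
@[simp] lemma pb_inv (x : V × V × V) : (pb⁻¹ : Perm _) x = (x.1, x.2.1 - x.2.2, x.2.2) := rfl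
@[simp] lemma pe_inv (s : V →+ V) (x : V × V × V) :
    ((pe s)⁻¹ : Perm _) x = (x.1, x.2.1, x.2.2 - s x.1) := rfl

lemma ep_pe (s : V →+ V) : ep pa pb (pe s) = pe (s.comp s) := by
  refine Equiv.ext fun x => ?_
  simp only [ep, cm, mul_inv_rev, inv_inv, Perm.mul_apply, pa_apply, pb_apply, pe_apply, pa_inv,
    pb_inv, pe_inv, map_add, map_sub, AddMonoidHom.comp_apply, Prod.mk.injEq]
  refine ⟨?_, ?_, ?_⟩ <;> abel

lemma heis_ab : Heis (pa : Perm (V × V × V)) pb := by
  constructor <;>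
  · refine Equiv.ext fun x => Prod.ext ?_ (Prod.ext ?_ ?_) <;>
      simp only [Perm.mul_apply, pa_apply, pb_apply, pa_inv, pb_inv] <;> abel

lemma heis_be (s : V →+ V) : Heis pb (pe s) := by
  constructor <;>
  · refine Equiv.ext fun x => Prod.ext ?_ (Prod.ext ?_ ?_) <;>
      simp only [Perm.mul_apply, pe_apply, pb_apply, pe_inv, pb_inv] <;> abel

lemma heis_ea (s : V →+ V) : Heis (pe s) pa := by
  constructor <;>
  · refine Equiv.ext fun x => Prod.ext ?_ (Prod.ext ?_ ?_) <;>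
      simp only [Perm.mul_apply, pe_apply, pa_apply, pe_inv, pa_inv, map_add, map_sub] <;> abel

lemma pa5 (h : ∀ v : V, v + v + v + v + v = 0) : (pa : Perm (V × V × V)) ^ 5 = 1 := by
  refine Equiv.ext fun x => Prod.ext ?_ rfl
  show x.1 + x.2.1 + x.2.1 + x.2.1 + x.2.1 + x.2.1 = x.1
  simpa only [add_assoc, add_eq_left] using h x.2.1

lemma pb5 (h : ∀ v : V, v + v + v + v + v = 0) : (pb : Perm (V × V × V)) ^ 5 = 1 := by
  refine Equiv.ext fun x => Prod.ext rfl (Prod.ext ?_ rfl)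
  show x.2.1 + x.2.2 + x.2.2 + x.2.2 + x.2.2 + x.2.2 = x.2.1
  simpa only [add_assoc, add_eq_left] using h x.2.2

lemma pe5 (h : ∀ v : V, v + v + v + v + v = 0) (s : V →+ V) : pe s ^ 5 = 1 := by
  refine Equiv.ext fun x => Prod.ext rfl (Prod.ext rfl ?_)
  show x.2.2 + s x.1 + s x.1 + s x.1 + s x.1 + s x.1 = x.2.2
  simpa only [add_assoc, add_eq_left] using h (s x.1)

/-- the cube of a subgroup -/
def cube (S : AddSubgroup V) : Set (V × V × V) := {x | x.1 ∈ S ∧ x.2.1 ∈ S ∧ x.2.2 ∈ S}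

lemma cube_pa (S : AddSubgroup V) : pa ⁻¹' cube S = cube S := by
  ext x
  exact ⟨fun h => ⟨(add_mem_cancel_right h.2.1).1 h.1, h.2⟩, fun h => ⟨add_mem h.1 h.2.1, h.2⟩⟩

lemma cube_pb (S : AddSubgroup V) : pb ⁻¹' cube S = cube S := by
  ext x
  exact ⟨fun h => ⟨h.1, (add_mem_cancel_right h.2.2).1 h.2.1, h.2.2⟩,
    fun h => ⟨h.1, add_mem h.2.1 h.2.2, h.2.2⟩⟩

lemma cube_pe (S : AddSubgroup V) (s : V →+ V) (hs : ∀ v ∈ S, s v ∈ S) :
    pe s ⁻¹' cube S = cube S := by
  ext x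
  exact ⟨fun h => ⟨h.1, h.2.1, (add_mem_cancel_right (hs _ h.1)).1 h.2.2⟩,
    fun h => ⟨h.1, h.2.1, add_mem h.2.2 (hs _ h.1)⟩⟩

lemma cube_pe_ne (S : AddSubgroup V) (s : V →+ V) {v : V} (hv : v ∈ S) (hs : s v ∉ S) :
    ((pe s)⁻¹ : Perm _) ⁻¹' cube S ≠ cube S := by
  intro h
  have h1 : (v, (0 : V), (0 : V)) ∈ cube S := ⟨hv, zero_mem _, zero_mem _⟩
  rw [← h] at h1
  exact hs (by simpa using h1.2.2)

end elem

section lamp
variable {X : Type}

/-- lamp configurations with one extra central bit -/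
abbrev Lamp (X : Type) := (Set X → ZMod 2) × ZMod 2

/-- permutations move lamps -/
def lift : Perm X →* Perm (Lamp X) where
  toFun g :=
    { toFun := fun p => (fun y => p.1 (g ⁻¹' y), p.2)
      invFun := fun p => (fun y => p.1 ((g⁻¹ : Perm X) ⁻¹' y), p.2)
      left_inv := fun p => by
        refine Prod.ext (funext fun y => congrArg p.1 ?_) rfl
        ext x; simp
      right_inv := fun p => by
        refine Prod.ext (funext fun y => congrArg p.1 ?_) rfl
        ext x; simp }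
  map_one' := rfl
  map_mul' _ _ := rfl

lemma two_add (x y : ZMod 2) : x + y + y = x := by revert x y; decide

/-- reading a lamp into the central bit -/
def cflip (y : Set X) : Perm (Lamp X) :=
  Function.Involutive.toPerm (fun p => (p.1, p.2 + p.1 y)) fun p => Prod.ext rfl (two_add _ _)

open Classical in
/-- switching a lamp -/
noncomputable def dadd (y : Set X) : Perm (Lamp X) :=
  Function.Involutive.toPerm (fun p => (fun y' => p.1 y' + if y' = y then 1 else 0, p.2))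
    fun p => Prod.ext (funext fun _ => two_add _ _) rfl

/-- switching the central bit -/
def zz {A : Type} : Perm (A × ZMod 2) :=
  Function.Involutive.toPerm (fun p => (p.1, p.2 + 1)) fun p => Prod.ext rfl (two_add _ _)

lemma cflip_comm (y : Set X) (g : Perm X) (h : g ⁻¹' y = y) : Commute (cflip y) (lift g) := by
  refine Equiv.ext fun p => Prod.ext rfl ?_
  show p.2 + p.1 (g ⁻¹' y) = p.2 + p.1 y
  rw [h]

lemma conj_cflip (y : Set X) (g : Perm X) :
    lift g * cflip y * (lift g)⁻¹ = cflip ((g⁻¹ : Perm X) ⁻¹' y) := by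
  rw [mul_inv_eq_iff_eq_mul]
  refine Equiv.ext fun p => Prod.ext rfl ?_
  show p.2 + p.1 y = p.2 + p.1 (g ⁻¹' ((g⁻¹ : Perm X) ⁻¹' y))
  have : g ⁻¹' ((g⁻¹ : Perm X) ⁻¹' y) = y := by ext x; simp
  rw [this]

lemma rel_lamp {a b e : Perm X} (ha : a ^ 5 = 1) (hb : b ^ 5 = 1) (he : e ^ 5 = 1)
    (h1 : Heis a b) (h2 : Heis b e) (h3 : Heis e a) (y : Set X) (ya : a ⁻¹' y = y)
    (yb : b ⁻¹' y = y) (ye : (ep a b e : Perm X) ⁻¹' y = y) (hne : (e⁻¹ : Perm X) ⁻¹' y ≠ y) :
    Rel (lift a) (lift b) (lift e) 1 (cflip y) (dadd ((e⁻¹ : Perm X) ⁻¹' y)) zz := by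
  refine ⟨by rw [← map_pow, ha, map_one], by rw [← map_pow, hb, map_one],
    by rw [← map_pow, he, map_one], h1.map lift, h2.map lift, h3.map lift, Commute.one_left _,
    Commute.one_left _, cflip_comm y a ya, cflip_comm y b yb,
    by rw [← map_ep]; exact cflip_comm y _ ye, Equiv.ext fun p => Prod.ext rfl (two_add _ _),
    Equiv.ext fun p => rfl, Equiv.ext fun p => rfl, Equiv.ext fun p => rfl,
    Equiv.ext fun p => rfl, Equiv.ext fun p => Prod.ext rfl ?_, ?_⟩
  · show p.2 + p.1 y = p.2 + (p.1 y + ite _ _ _)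
    rw [if_neg hne.symm, add_zero]
  · rw [conj_cflip]
    refine Equiv.ext fun p => Prod.ext rfl ?_
    show p.2 + p.1 _ = p.2 + 1 + (p.1 _ + ite _ _ _)
    rw [if_pos rfl]
    generalize p.2 = u
    generalize p.1 _ = v
    revert u v
    decide

end lamp

section shift
variable {M : ℕ}

/-- translation of functions -/
def shift (m : ZMod M) : (ZMod M → ZMod 5) →+ (ZMod M → ZMod 5) where
  toFun f i := f (i - m)
  map_zero' := rfl
  map_add' _ _ := rfl

lemma shift_shift (m : ZMod M) : (shift m).comp (shift m) = shift (m + m) := by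
  ext f i
  show f (i - m - m) = f (i - (m + m))
  rw [sub_sub]

/-- functions supported on the multiples of `m` -/
def supp (m : ZMod M) : AddSubgroup (ZMod M → ZMod 5) where
  carrier := {f | ∀ i, ¬ m ∣ i → f i = 0}
  add_mem' := fun hf hg i hi => by rw [Pi.add_apply, hf i hi, hg i hi, add_zero]
  zero_mem' := fun _ _ => rfl
  neg_mem' := fun hf i hi => by rw [Pi.neg_apply, hf i hi, neg_zero]

lemma shift_supp (m : ZMod M) : ∀ f ∈ supp m, shift m f ∈ supp m := by
  intro f hf i hi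
  refine hf (i - m) fun h => hi ?_
  simpa using dvd_add h (dvd_refl m)

lemma five_add (f : ZMod M → ZMod 5) : f + f + f + f + f = 0 := by
  funext i
  simp only [Pi.add_apply, Pi.zero_apply]
  generalize f i = x
  revert x
  decide

lemma rel_level (m : ZMod M) (hm : ¬ (m + m) ∣ m) :
    Rel (lift pa) (lift pb) (lift (pe (shift m))) 1 (cflip (cube (supp (m + m))))
      (dadd (((pe (shift m))⁻¹ : Perm _) ⁻¹' cube (supp (m + m)))) zz := by
  classical
  refine rel_lamp (pa5 five_add) (pb5 five_add) (pe5 five_add _) heis_ab (heis_be _) (heis_ea _) _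
    (cube_pa _) (cube_pb _) (by rw [ep_pe, shift_shift]; exact cube_pe _ _ (shift_supp _))
    (cube_pe_ne _ _ (v := fun i => if i = 0 then 1 else 0) (fun i hi => ?_) fun h => ?_)
  · refine if_neg ?_
    rintro rfl
    exact hi (dvd_zero _)
  · have := h m hm
    simp only [shift, AddMonoidHom.coe_mk, ZeroHom.coe_mk, sub_self, if_true] at this
    exact absurd this (by decide)

lemma not_dvd_pow {N j : ℕ} (h : j < N) :
    ¬ ((2 : ZMod (2 ^ N)) ^ j + 2 ^ j) ∣ (2 : ZMod (2 ^ N)) ^ j := by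
  rintro ⟨u, hu⟩
  obtain ⟨r, rfl⟩ := Nat.exists_eq_add_of_lt h
  have h1 : (2 : ZMod (2 ^ (j + r + 1))) ^ (j + r + 1) = 0 := by
    exact_mod_cast ZMod.natCast_self (2 ^ (j + r + 1))
  have h2 : (2 : ZMod (2 ^ (j + r + 1))) ^ (j + r) = 0 := by
    calc (2 : ZMod (2 ^ (j + r + 1))) ^ (j + r) = 2 ^ j * 2 ^ r := pow_add _ _ _
      _ = (2 ^ j + 2 ^ j) * u * 2 ^ r := by rw [← hu]
      _ = 2 ^ (j + r + 1) * u := by ring
      _ = 0 := by rw [h1, zero_mul]
  have h3 : ((2 ^ (j + r) : ℕ) : ZMod (2 ^ (j + r + 1))) = 0 := by exact_mod_cast h2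
  rw [ZMod.natCast_eq_zero_iff, Nat.pow_dvd_pow_iff_le_right (by norm_num)] at h3
  omega

end shift

section wreath
variable {Ω I : Type}

/-- coordinatewise action on a disjoint union of copies -/
def emb : (I → Perm Ω) →* Perm (Ω × I) where
  toFun f := Equiv.prodCongrLeft f
  map_one' := rfl
  map_mul' _ _ := rfl

/-- permuting the copies -/
def mov : Perm I →* Perm (Ω × I) where
  toFun s := Equiv.prodCongr (Equiv.refl Ω) s
  map_one' := rfl
  map_mul' _ _ := rfl

lemma conj_emb (s : Perm I) (f : I → Perm Ω) :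
    mov s * emb f * (mov s)⁻¹ = emb fun i => f (s⁻¹ i) := by
  rw [mul_inv_eq_iff_eq_mul]
  refine Equiv.ext fun p => Prod.ext ?_ rfl
  show f p.2 p.1 = f (s⁻¹ (s p.2)) p.1
  simp

lemma comm_emb (s : Perm I) (g : Perm Ω) : Commute (mov s) (emb fun _ : I => g) :=
  Equiv.ext fun _ => rfl

lemma rel_emb {a b e t c d z : I → Perm Ω}
    (h : ∀ i, Rel (a i) (b i) (e i) (t i) (c i) (d i) (z i)) :
    Rel (emb a) (emb b) (emb e) (emb t) (emb c) (emb d) (emb z) :=
  Rel.transfer emb (fun i => Pi.evalMonoidHom (fun _ => Perm Ω) i)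
    (fun _ _ hxy => congrArg emb (funext hxy)) h

end wreath

end Pool.Agent.H66Z.MF
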