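import Mathlib

set_option autoImplicit false

open scoped InnerProductSpace RealInnerProductSpace

namespace Pool.Agent.H66Z.MF

variable {E : Type*} [NormedAddCommGroup E] [InnerProductSpace ℝ E]

section dg
variable {ι : Type*} [Fintype ι] (b : OrthonormalBasis ι ℝ E)

/-- diagonal operator in an orthonormal basis -/
noncomputable def dg (f : ι → ℝ) : E →L[ℝ] E :=
  ∑ i, f i • (innerSL ℝ (b i)).smulRight (b i)

lemma inner_dg (f : ι → ℝ) (v : E) (j : ι) : ⟪b j, dg b f v⟫_ℝ = f j * ⟪b j, v⟫_ℝ := by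
  classical
  simp only [dg, ContinuousLinearMap.sum_apply, ContinuousLinearMap.smul_apply,
    ContinuousLinearMap.smulRight_apply, innerSL_apply_apply, inner_sum, inner_smul_right,
    b.inner_eq_ite]
  simp

lemma ext_basis {v w : E} (h : ∀ i, ⟪b i, v⟫_ℝ = ⟪b i, w⟫_ℝ) : v = w := by
  rw [← b.sum_repr' v, ← b.sum_repr' w]
  simp only [h]

lemma dg_mul (f g : ι → ℝ) : dg b f * dg b g = dg b (f * g) := by
  ext v
  refine ext_basis b fun i => ?_
  simp only [ContinuousLinearMap.mul_apply, inner_dg, Pi.mul_apply, mul_assoc]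

lemma dg_one : dg b 1 = 1 := by
  ext v
  refine ext_basis b fun i => ?_
  simp [inner_dg]

lemma dg_sub (f g : ι → ℝ) : dg b (f - g) = dg b f - dg b g := by
  ext v
  refine ext_basis b fun i => ?_
  simp only [ContinuousLinearMap.sub_apply, inner_sub_right, inner_dg, Pi.sub_apply, sub_mul]

lemma dg_symm (f : ι → ℝ) (v w : E) : ⟪dg b f v, w⟫_ℝ = ⟪v, dg b f w⟫_ℝ := by
  rw [← b.sum_inner_mul_inner (dg b f v) w, ← b.sum_inner_mul_inner v (dg b f w)]
  refine Finset.sum_congr rfl fun i _ => ?_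
  rw [real_inner_comm, inner_dg, inner_dg, real_inner_comm v]
  ring

lemma norm_dg_le (f : ι → ℝ) {M : ℝ} (hM : 0 ≤ M) (h : ∀ i, |f i| ≤ M) : ‖dg b f‖ ≤ M := by
  refine ContinuousLinearMap.opNorm_le_bound _ hM fun v => ?_
  refine (pow_le_pow_iff_left₀ (norm_nonneg _) (by positivity) two_ne_zero).1 ?_
  rw [mul_pow, ← b.sum_sq_inner_right, ← b.sum_sq_inner_right v, Finset.mul_sum]
  refine Finset.sum_le_sum fun i _ => ?_
  rw [inner_dg, mul_pow]
  refine mul_le_mul_of_nonneg_right ?_ (sq_nonneg _)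
  rw [← sq_abs]
  exact pow_le_pow_left₀ (abs_nonneg _) (h i) 2

end dg

variable [FiniteDimensional ℝ E]

lemma spectral_cut (D : E →L[ℝ] E) (hD : ∀ v w, ⟪D v, w⟫_ℝ = ⟪v, D w⟫_ℝ) {c : ℝ} (hc : 0 < c) :
    ∃ (p R : E →L[ℝ] E) (u : E), p * p = p ∧ (∀ v w, ⟪p v, w⟫_ℝ = ⟪v, p w⟫_ℝ) ∧ ‖p‖ ≤ 1 ∧
      ‖R‖ ≤ 1 / c ∧ R * D = 1 - p ∧ ‖u‖ ≤ 1 ∧ ⟪D u, D u⟫_ℝ = ⟪D u, u⟫_ℝ ^ 2 ∧ ⟪D u, u⟫_ℝ ≤ c ∧
      ‖D * p‖ ≤ ‖D u‖ := by
  classical
  have hT : (D : E →ₗ[ℝ] E).IsSymmetric := hD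
  set b := hT.eigenvectorBasis rfl with hb
  set l := hT.eigenvalues rfl with hl
  have hap : ∀ i, D (b i) = l i • b i := fun i => hT.apply_eigenvectorBasis rfl i
  have hDl : D = dg b l := by
    ext v
    refine ext_basis b fun i => ?_
    rw [inner_dg, ← hD, hap, inner_smul_left]
    simp
  let χ := fun i => if l i < c then (1 : ℝ) else 0
  let r := fun i => if l i < c then (0 : ℝ) else 1 / l i
  have hu : ∃ u : E, ‖u‖ ≤ 1 ∧ ⟪D u, D u⟫_ℝ = ⟪D u, u⟫_ℝ ^ 2 ∧ ⟪D u, u⟫_ℝ ≤ c ∧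
      ∀ i, |(l * χ) i| ≤ ‖D u‖ := by
    by_cases hne : (Finset.univ.filter fun i => l i < c).Nonempty
    · obtain ⟨j, hj, hmax⟩ := Finset.exists_max_image _ (fun i => |l i|) hne
      have hj' : l j < c := (Finset.mem_filter.1 hj).2
      refine ⟨b j, by simp, ?_, ?_, fun i => ?_⟩
      · simp [hap, inner_smul_left, norm_smul, sq]
      · simp [hap, inner_smul_left, hj'.le]
      · by_cases hi : l i < c
        · have := hmax i (by simp [hi])
          simpa [hap, χ, hi, norm_smul] using this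
        · simp [χ, hi]
    · refine ⟨0, by simp, by simp, by simp [hc.le], fun i => ?_⟩
      have hi : ¬ l i < c := fun h => hne ⟨i, by simp [h]⟩
      simp [χ, hi]
  obtain ⟨u, h1, h2, h3, h4⟩ := hu
  refine ⟨dg b χ, dg b r, u, ?_, dg_symm b χ, ?_, ?_, ?_, h1, h2, h3, ?_⟩
  · rw [dg_mul]
    congr 1
    funext i
    by_cases hi : l i < c <;> simp [χ, hi]
  · refine norm_dg_le b _ zero_le_one fun i => ?_
    by_cases hi : l i < c <;> simp [χ, hi]
  · refine norm_dg_le b _ (by positivity) fun i => ?_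
    by_cases hi : l i < c
    · simp [r, hi, hc.le]
    · have : c ≤ l i := not_lt.1 hi
      simp only [r, hi, if_false]
      rw [abs_of_pos (one_div_pos.2 (hc.trans_le this))]
      exact one_div_le_one_div_of_le hc this
  · rw [hDl, dg_mul, ← dg_one b, ← dg_sub]
    congr 1
    funext i
    by_cases hi : l i < c
    · simp [χ, r, hi]
    · have : l i ≠ 0 := (hc.trans_le (not_lt.1 hi)).ne'
      simp [χ, r, hi, this]
  · conv_lhs => rw [hDl, dg_mul]
    exact norm_dg_le b _ (norm_nonneg _) h4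

/-- in finite dimension an isometry that almost preserves a subspace almost preserves its
orthogonal complement -/
lemma swap_bound (p S : E →L[ℝ] E) (hpp : p * p = p) (hps : ∀ v w, ⟪p v, w⟫_ℝ = ⟪v, p w⟫_ℝ)
    (hS : ∀ v w, ⟪S v, S w⟫_ℝ = ⟪v, w⟫_ℝ) (hp : ‖p‖ ≤ 1) (h : ‖(1 - p) * S * p‖ ≤ 1 / 2) :
    ‖p * S * (1 - p)‖ ≤ 4 * ‖(1 - p) * S * p‖ := by
  set ε := ‖(1 - p) * S * p‖ with hε
  have hε0 : 0 ≤ ε := norm_nonneg _
  have pp : ∀ v, p (p v) = p v := fun v => congr($hpp v)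
  have nS : ∀ v, ‖S v‖ = ‖v‖ := by
    intro v
    rw [norm_eq_sqrt_real_inner, norm_eq_sqrt_real_inner, hS]
  have np : ∀ v, ‖p v‖ ≤ ‖v‖ := fun v => by simpa using p.le_of_opNorm_le hp v
  have hb : ∀ x, p x = x → ‖S x - p (S x)‖ ≤ ε * ‖x‖ := by
    intro x hx
    have := ((1 - p) * S * p).le_opNorm x
    simpa [hx] using this
  have low : ∀ x, p x = x → ‖x‖ ≤ 2 * ‖p (S x)‖ := by
    intro x hx
    have h1 := hb x hx
    have h2 : ‖S x‖ ≤ ‖S x - p (S x)‖ + ‖p (S x)‖ := by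
      simpa using norm_add_le (S x - p (S x)) (p (S x))
    rw [nS] at h2
    nlinarith [norm_nonneg x]
  let B : E →ₗ[ℝ] E := ((p * S * p + (1 - p) : E →L[ℝ] E) : E →ₗ[ℝ] E)
  have hB : ∀ x, B x = p (S (p x)) + (x - p x) := fun x => rfl
  have hinj : Function.Injective B := by
    rw [injective_iff_map_eq_zero]
    intro x hx
    rw [hB] at hx
    have h1 : p (S (p x)) = 0 := by simpa [pp] using congrArg p hx
    have h2 : p x = 0 := by
      have := low (p x) (pp x)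
      rw [h1, norm_zero, mul_zero] at this
      exact norm_le_zero_iff.1 this
    simpa [h1, h2] using hx
  have hsurj : Function.Surjective B := LinearMap.injective_iff_surjective.1 hinj
  refine ContinuousLinearMap.opNorm_le_bound _ (by positivity) fun v => ?_
  have e1 : (p * S * (1 - p)) v = p (S (v - p v)) := rfl
  rw [e1]
  set y := p (S (v - p v)) with hy
  obtain ⟨x, hx⟩ := hsurj y
  rw [hB] at hx
  have hpy : p y = y := pp _
  have h1 : p (S (p x)) = y := by simpa [pp, hpy] using congrArg p hx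
  have h2 : ‖p x‖ ≤ 2 * ‖y‖ := by simpa [h1] using low (p x) (pp x)
  have h3 : ⟪y, y⟫_ℝ = -⟪S (p x) - p (S (p x)), S (v - p v)⟫_ℝ := by
    have : ⟪S (p x), S (v - p v)⟫_ℝ = 0 := by
      rw [hS, hps, map_sub, pp, sub_self, inner_zero_right]
    rw [inner_sub_left, this, h1, zero_sub, neg_neg]
    conv_rhs => rw [← hpy, hps]
  have h4 : ‖v - p v‖ ≤ ‖v‖ := by
    have e : ⟪v - p v, v - p v⟫_ℝ = ⟪v - p v, v⟫_ℝ := by
      rw [inner_sub_right, ← hps, map_sub, pp, sub_self, inner_zero_left, sub_zero]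
    have := real_inner_le_norm (v - p v) v
    rw [← e, real_inner_self_eq_norm_sq] at this
    by_contra hlt
    push Not at hlt
    nlinarith [norm_nonneg v]
  have h5 : ‖y‖ ^ 2 ≤ ε * ‖p x‖ * ‖v‖ := by
    rw [← real_inner_self_eq_norm_sq, h3]
    refine (neg_le_abs _).trans ((abs_real_inner_le_norm _ _).trans ?_)
    rw [nS]
    exact mul_le_mul (hb _ (pp x)) h4 (norm_nonneg _) (by positivity)
  have h6 : ‖y‖ ^ 2 ≤ ε * (2 * ‖y‖) * ‖v‖ := h5.trans (by gcongr)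
  by_cases hy0 : ‖y‖ = 0
  · rw [hy0]; positivity
  · have : 0 < ‖y‖ := lt_of_le_of_ne (norm_nonneg _) (Ne.symm hy0)
    have h7 : ‖y‖ ≤ ε * 2 * ‖v‖ := by nlinarith
    nlinarith [norm_nonneg v, mul_nonneg hε0 (norm_nonneg v)]

end Pool.Agent.H66Z.MF
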