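import Pool.Agent.H66Z.MF.Kaz
import Pool.Agent.H66Z.MF.Spec

set_option autoImplicit false

open scoped InnerProductSpace RealInnerProductSpace
open Filter Topology

namespace Pool.Agent.H66Z.MF

variable (H : ℕ → Type*) [∀ n, NormedAddCommGroup (H n)] [∀ n, InnerProductSpace ℝ (H n)]
  (U : Ultrafilter ℕ)

/-- bounded sequences of vectors -/
def Bdd : Submodule ℝ (∀ n, H n) where
  carrier := {v | ∃ C : ℝ, ∀ n, ‖v n‖ ≤ C}
  add_mem' := by
    rintro v w ⟨C, hC⟩ ⟨D, hD⟩
    exact ⟨C + D, fun n => (norm_add_le _ _).trans (add_le_add (hC n) (hD n))⟩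
  zero_mem' := ⟨0, fun n => by simp⟩
  smul_mem' := by
    rintro c v ⟨C, hC⟩
    exact ⟨‖c‖ * C, fun n => by
      rw [Pi.smul_apply, norm_smul]; exact mul_le_mul_of_nonneg_left (hC n) (norm_nonneg _)⟩

/-- null sequences along the ultrafilter -/
def Null : Submodule ℝ (Bdd H) where
  carrier := {v | Tendsto (fun n => ‖v.1 n‖) U (𝓝 0)}
  add_mem' := by
    intro v w hv hw
    refine squeeze_zero (fun n => norm_nonneg _) (fun n => norm_add_le (v.1 n) (w.1 n)) ?_
    simpa using Tendsto.add hv hw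
  zero_mem' := by simp
  smul_mem' := by
    intro c v hv
    have : Tendsto (fun n => ‖c‖ * ‖v.1 n‖) U (𝓝 0) := by simpa using Tendsto.const_mul ‖c‖ hv
    simpa [norm_smul] using this

/-- the ultraproduct -/
abbrev UP := Bdd H ⧸ Null H U

/-- bounded sequences of operators -/
def BOp : Subalgebra ℝ (∀ n, H n →L[ℝ] H n) where
  carrier := {A | ∃ C : ℝ, ∀ n, ‖A n‖ ≤ C}
  mul_mem' := by
    rintro A B ⟨C, hC⟩ ⟨D, hD⟩
    exact ⟨C * D, fun n => (norm_mul_le _ _).trans
      (mul_le_mul (hC n) (hD n) (norm_nonneg _) ((norm_nonneg _).trans (hC n)))⟩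
  add_mem' := by
    rintro v w ⟨C, hC⟩ ⟨D, hD⟩
    exact ⟨C + D, fun n => (norm_add_le _ _).trans (add_le_add (hC n) (hD n))⟩
  algebraMap_mem' := fun r => ⟨‖r‖, fun n => by
    refine ContinuousLinearMap.opNorm_le_bound _ (norm_nonneg _) fun v => ?_
    simp [Algebra.algebraMap_eq_smul_one, norm_smul]⟩

variable {H}

/-- action of bounded operator sequences on bounded vector sequences -/
def act (A : BOp H) : Bdd H →ₗ[ℝ] Bdd H where
  toFun v := ⟨fun n => A.1 n (v.1 n), by
    obtain ⟨C, hC⟩ := A.2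
    obtain ⟨D, hD⟩ := v.2
    exact ⟨C * D, fun n => ((A.1 n).le_opNorm _).trans
      (mul_le_mul (hC n) (hD n) (norm_nonneg _) ((norm_nonneg _).trans (hC n)))⟩⟩
  map_add' v w := by ext n; simp
  map_smul' c v := by ext n; simp

@[simp] lemma act_apply (A : BOp H) (v : Bdd H) (n : ℕ) : (act A v).1 n = A.1 n (v.1 n) := rfl

lemma act_null (A : BOp H) : Null H U ≤ (Null H U).comap (act A) := by
  intro v hv
  obtain ⟨C, hC⟩ := A.2
  refine squeeze_zero (fun n => norm_nonneg _) (g := fun n => C * ‖v.1 n‖)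
    (fun n => (A.1 n).le_of_opNorm_le (hC n) _) ?_
  simpa using Tendsto.const_mul C hv

/-- the induced representation on the ultraproduct -/
noncomputable def Phi : BOp H →ₐ[ℝ] Module.End ℝ (UP H U) :=
  AlgHom.ofLinearMap
    { toFun := fun A => (Null H U).mapQ (Null H U) (act A) (act_null U A)
      map_add' := fun A B => by
        refine LinearMap.ext fun w => ?_
        induction w using Submodule.Quotient.induction_on with | H v => rfl
      map_smul' := fun c A => by
        refine LinearMap.ext fun w => ?_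
        induction w using Submodule.Quotient.induction_on with | H v => rfl }
    (by
      refine LinearMap.ext fun w => ?_
      induction w using Submodule.Quotient.induction_on with | H v => rfl)
    (fun A B => by
      refine LinearMap.ext fun w => ?_
      induction w using Submodule.Quotient.induction_on with | H v => rfl)

lemma Phi_mk (A : BOp H) (v : Bdd H) :
    Phi U A (Submodule.Quotient.mk v) = Submodule.Quotient.mk (act A v) := rfl

lemma Phi_eq_zero_iff (A : BOp H) : Phi U A = 0 ↔ Tendsto (fun n => ‖A.1 n‖) U (𝓝 0) := by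
  constructor
  · intro h
    have hx : ∀ n, ∃ x : H n, ‖x‖ ≤ 1 ∧ ‖A.1 n‖ ≤ 2 * ‖A.1 n x‖ := by
      intro n
      by_cases h0 : ‖A.1 n‖ = 0
      · exact ⟨0, by simp, by simp [h0]⟩
      · have : 0 < ‖A.1 n‖ := lt_of_le_of_ne (norm_nonneg _) (Ne.symm h0)
        obtain ⟨x, h1, h2⟩ := (A.1 n).exists_lt_apply_of_lt_opNorm (r := ‖A.1 n‖ / 2) (by linarith)
        exact ⟨x, h1.le, by linarith⟩
    choose x h1 h2 using hx
    have h3 := LinearMap.congr_fun h (Submodule.Quotient.mk ⟨x, 1, h1⟩)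
    rw [Phi_mk, LinearMap.zero_apply, Submodule.Quotient.mk_eq_zero] at h3
    refine squeeze_zero (fun n => norm_nonneg _) h2 ?_
    simpa using Tendsto.const_mul 2 h3
  · intro h
    refine LinearMap.ext fun w => ?_
    induction w using Submodule.Quotient.induction_on with | H v =>
    rw [Phi_mk, LinearMap.zero_apply, Submodule.Quotient.mk_eq_zero]
    obtain ⟨D, hD⟩ := v.2
    refine squeeze_zero (fun n => norm_nonneg _) (g := fun n => ‖A.1 n‖ * D)
      (fun n => ((A.1 n).le_opNorm _).trans (mul_le_mul_of_nonneg_left (hD n) (norm_nonneg _))) ?_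
    simpa using Tendsto.mul_const D h

lemma exists_lim (v w : Bdd H) : ∃ x : ℝ, Tendsto (fun n => ⟪v.1 n, w.1 n⟫_ℝ) U (𝓝 x) := by
  obtain ⟨C, hC⟩ := v.2
  obtain ⟨D, hD⟩ := w.2
  have hb : ∀ n, ⟪v.1 n, w.1 n⟫_ℝ ∈ Set.Icc (-(C * D)) (C * D) := fun n =>
    abs_le.1 ((abs_real_inner_le_norm _ _).trans
      (mul_le_mul (hC n) (hD n) (norm_nonneg _) ((norm_nonneg _).trans (hC n))))
  obtain ⟨x, -, hx⟩ := isCompact_Icc.ultrafilter_le_nhds (U.map fun n => ⟪v.1 n, w.1 n⟫_ℝ)
    (by rw [le_principal_iff]; exact Filter.mem_map.2 (Filter.univ_mem' hb))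
  exact ⟨x, hx⟩

lemma tendsto_lim (v w : Bdd H) : Tendsto (fun n => ⟪v.1 n, w.1 n⟫_ℝ) U
    (𝓝 (limUnder U fun n => ⟪v.1 n, w.1 n⟫_ℝ)) := tendsto_nhds_limUnder (exists_lim U v w)

/-- the limit inner product on bounded sequences -/
noncomputable def form0 : Bdd H →ₗ[ℝ] Bdd H →ₗ[ℝ] ℝ :=
  LinearMap.mk₂ ℝ (fun v w => limUnder U fun n => ⟪v.1 n, w.1 n⟫_ℝ)
    (fun v v' w => by
      apply Tendsto.limUnder_eq
      simpa [inner_add_left] using (tendsto_lim U v w).add (tendsto_lim U v' w))
    (fun c v w => by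
      apply Tendsto.limUnder_eq
      simpa [inner_smul_left] using (tendsto_lim U v w).const_mul c)
    (fun v w w' => by
      apply Tendsto.limUnder_eq
      simpa [inner_add_right] using (tendsto_lim U v w).add (tendsto_lim U v w'))
    (fun c v w => by
      apply Tendsto.limUnder_eq
      simpa [inner_smul_right] using (tendsto_lim U v w).const_mul c)

lemma form0_symm (v w : Bdd H) : form0 U v w = form0 U w v := by
  simp only [form0, LinearMap.mk₂_apply, real_inner_comm]

lemma form0_null {v : Bdd H} (hv : v ∈ Null H U) (w : Bdd H) : form0 U v w = 0 := by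
  apply Tendsto.limUnder_eq
  obtain ⟨D, hD⟩ := w.2
  refine squeeze_zero_norm (a := fun n => ‖v.1 n‖ * D) (fun n => (norm_inner_le_norm _ _).trans
    (mul_le_mul_of_nonneg_left (hD n) (norm_nonneg _))) ?_
  simpa using Tendsto.mul_const D hv

/-- the inner product on the ultraproduct -/
noncomputable def form : UP H U →ₗ[ℝ] UP H U →ₗ[ℝ] ℝ :=
  LinearMap.liftQ₂ (Null H U) (Null H U) (form0 U)
    (fun v hv => LinearMap.ext fun w => form0_null U hv w)
    (fun v hv => LinearMap.ext fun w => by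
      rw [LinearMap.flip_apply, form0_symm]; exact form0_null U hv w)

lemma tendsto_form (v w : Bdd H) : Tendsto (fun n => ⟪v.1 n, w.1 n⟫_ℝ) U
    (𝓝 (form U (Submodule.Quotient.mk v) (Submodule.Quotient.mk w))) := tendsto_lim U v w

lemma form_symm (v w : UP H U) : form U v w = form U w v := by
  induction v using Submodule.Quotient.induction_on with | H v =>
  induction w using Submodule.Quotient.induction_on with | H w =>
  exact form0_symm U v w

lemma form_nonneg (v : UP H U) : 0 ≤ form U v v := by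
  induction v using Submodule.Quotient.induction_on with | H v =>
  exact ge_of_tendsto' (tendsto_form U v v) fun n => real_inner_self_nonneg

lemma form_def (v : UP H U) (h : form U v v = 0) : v = 0 := by
  induction v using Submodule.Quotient.induction_on with | H v =>
  rw [Submodule.Quotient.mk_eq_zero]
  have := (tendsto_form U v v).sqrt
  rw [h, Real.sqrt_zero] at this
  simp only [← norm_eq_sqrt_real_inner] at this
  exact this

lemma form_adj (A B : BOp H) (h : ∀ n v w, ⟪A.1 n v, w⟫_ℝ = ⟪v, B.1 n w⟫_ℝ) (v w : UP H U) :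
    form U (Phi U A v) w = form U v (Phi U B w) := by
  induction v using Submodule.Quotient.induction_on with | H v =>
  induction w using Submodule.Quotient.induction_on with | H w =>
  rw [Phi_mk, Phi_mk]
  refine tendsto_nhds_unique (tendsto_form U _ _) ?_
  simpa only [act_apply, h] using tendsto_form U v (act B w)

lemma form_iso (A : BOp H) (h : ∀ n v w, ⟪A.1 n v, A.1 n w⟫_ℝ = ⟪v, w⟫_ℝ) (v w : UP H U) :
    form U (Phi U A v) (Phi U A w) = form U v w := by
  induction v using Submodule.Quotient.induction_on with | H v =>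
  induction w using Submodule.Quotient.induction_on with | H w =>
  rw [Phi_mk, Phi_mk]
  refine tendsto_nhds_unique (tendsto_form U _ _) ?_
  simpa only [act_apply, h] using tendsto_form U v w

lemma Phi_avg (A : BOp H) : Phi U (avg A) = avg (Phi U A) := by
  simp only [avg, map_smul, map_add, map_one, map_pow]

variable [∀ n, FiniteDimensional ℝ (H n)]

lemma exists_symm_lift (A : BOp H) (h : ∀ v w, form U (Phi U A v) w = form U v (Phi U A w)) :
    ∃ D : BOp H, Phi U D = Phi U A ∧ ∀ n v w, ⟪D.1 n v, w⟫_ℝ = ⟪v, D.1 n w⟫_ℝ := by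
  haveI : ∀ n, CompleteSpace (H n) := fun n => FiniteDimensional.complete ℝ (H n)
  let B : BOp H := ⟨fun n => ContinuousLinearMap.adjoint (A.1 n), by
    obtain ⟨C, hC⟩ := A.2
    exact ⟨C, fun n => by rw [LinearIsometryEquiv.norm_map]; exact hC n⟩⟩
  have hB : Phi U B = Phi U A := by
    refine LinearMap.ext fun w => ?_
    rw [← sub_eq_zero]
    apply form_def U
    generalize hx : Phi U B w - Phi U A w = x
    conv_lhs => enter [2]; rw [← hx]
    rw [map_sub, ← h, ← form_adj U A B (fun n v w =>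
      (ContinuousLinearMap.adjoint_inner_right _ _ _).symm), sub_self]
  refine ⟨(1 / 2 : ℝ) • (A + B), ?_, fun n v w => ?_⟩
  · rw [map_smul, map_add, hB]
    module
  · show ⟪(1 / 2 : ℝ) • (A.1 n v + ContinuousLinearMap.adjoint (A.1 n) v), w⟫_ℝ =
      ⟪v, (1 / 2 : ℝ) • (A.1 n w + ContinuousLinearMap.adjoint (A.1 n) w)⟫_ℝ
    rw [inner_smul_left, inner_smul_right, inner_add_left, inner_add_right,
      ContinuousLinearMap.adjoint_inner_left, ContinuousLinearMap.adjoint_inner_right, add_comm]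
    simp

/-- a positive operator with a spectral gap on the ultraproduct has a kernel which is an
ultraproduct of subspaces -/
lemma exists_proj (A : BOp H) (h : ∀ v w, form U (Phi U A v) w = form U v (Phi U A w))
    (h0 : ∀ v, 0 ≤ form U (Phi U A v) v)
    (h1 : ∀ v, 1 / 11 * form U (Phi U A v) v ≤ form U (Phi U A v) (Phi U A v)) :
    ∃ p : BOp H, (∀ n, p.1 n * p.1 n = p.1 n) ∧ (∀ n v w, ⟪p.1 n v, w⟫_ℝ = ⟪v, p.1 n w⟫_ℝ) ∧
      (∀ n, ‖p.1 n‖ ≤ 1) ∧ (∀ w, Phi U A (Phi U p w) = 0) ∧
      ∀ w, Phi U A w = 0 → Phi U p w = w := by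
  obtain ⟨D, hD, hs⟩ := exists_symm_lift U A h
  rw [← hD] at h0 h1 ⊢
  choose p R u c1 c2 c3 c4 c5 c6 c7 c8 c9 using
    fun n => spectral_cut (D.1 n) (hs n) (c := 1 / 22) (by norm_num)
  let p' : BOp H := ⟨p, 1, c3⟩
  let R' : BOp H := ⟨R, _, c4⟩
  let u' : Bdd H := ⟨u, 1, c6⟩
  refine ⟨p', c1, c2, c3, ?_, ?_⟩
  · have t1 := tendsto_form U (act D u') u'
    have t2 := tendsto_form U (act D u') (act D u')
    have a0 := h0 (Submodule.Quotient.mk u')
    have a1 := h1 (Submodule.Quotient.mk u')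
    rw [Phi_mk] at a0 a1
    have a2 := tendsto_nhds_unique t2 (by simpa only [act_apply, u', c7] using t1.pow 2)
    have a3 := le_of_tendsto' t1 c8
    have a4 : form U (Submodule.Quotient.mk (act D u')) (Submodule.Quotient.mk (act D u')) = 0 := by
      rw [a2] at a1 ⊢
      nlinarith
    have a5 := (Submodule.Quotient.mk_eq_zero _).1 (form_def U _ a4)
    have a6 : Phi U (D * p') = 0 :=
      (Phi_eq_zero_iff U _).2 (squeeze_zero (fun n => norm_nonneg _) c9 a5)
    intro w
    rw [map_mul] at a6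
    exact LinearMap.congr_fun a6 w
  · intro w hw
    have a1 : R' * D = 1 - p' := Subtype.ext (funext c5)
    have a2 := LinearMap.congr_fun (congrArg (Phi U) a1) w
    rw [map_mul, map_sub, map_one, Module.End.mul_apply, hw, map_zero, LinearMap.sub_apply,
      Module.End.one_apply] at a2
    exact (sub_eq_zero.1 a2.symm).symm

lemma swap_Phi (p S : BOp H) (hpp : ∀ n, p.1 n * p.1 n = p.1 n)
    (hps : ∀ n v w, ⟪p.1 n v, w⟫_ℝ = ⟪v, p.1 n w⟫_ℝ) (hp : ∀ n, ‖p.1 n‖ ≤ 1)
    (hS : ∀ n v w, ⟪S.1 n v, S.1 n w⟫_ℝ = ⟪v, w⟫_ℝ) (h : Phi U ((1 - p) * S * p) = 0) :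
    Phi U (p * S * (1 - p)) = 0 := by
  rw [Phi_eq_zero_iff] at h ⊢
  refine squeeze_zero' (Eventually.of_forall fun n => norm_nonneg _)
    (g := fun n => 4 * ‖((1 - p) * S * p).1 n‖) ?_ (by simpa using h.const_mul 4)
  filter_upwards [h.eventually (ge_mem_nhds (show (0 : ℝ) < 1 / 2 by norm_num))] with n hn
  exact swap_bound (p.1 n) (S.1 n) (hpp n) (hps n) (hS n) (hp n) hn

theorem key {G : Type*} [Group G] (π : G → BOp H) (σ : G →* Module.End ℝ (UP H U))
    (hσ : ∀ g, σ g = Phi U (π g)) (hiso : ∀ g n v w, ⟪(π g).1 n v, (π g).1 n w⟫_ℝ = ⟪v, w⟫_ℝ)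
    {a b e t : G} (ha : a ^ 5 = 1) (hb : b ^ 5 = 1) (he : e ^ 5 = 1) (h1 : Heis a b)
    (h2 : Heis b e) (h3 : Heis e a) (hta : t * a * t⁻¹ ∈ Subgroup.closure {a, b, e})
    (htb : t * b * t⁻¹ ∈ Subgroup.closure {a, b, e})
    (hte : t * e * t⁻¹ ∈ Subgroup.closure {a, b, e}) (w : UP H U)
    (wa : σ (t * a * t⁻¹) w = w) (wb : σ (t * b * t⁻¹) w = w) (we : σ (t * e * t⁻¹) w = w) :
    σ e w = w := by
  have hs : ∀ g v w, form U (σ g v) (σ g w) = form U v w := fun g v w => by
    rw [hσ]; exact form_iso U _ (hiso g) v w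
  let A : BOp H := (1 - avg (π a)) + (1 - avg (π b)) + (1 - avg (π e))
  have hA : Phi U A = lap σ a b e := by
    simp only [A, lap, map_add, map_sub, map_one, Phi_avg, hσ]
  obtain ⟨p, c1, c2, c3, c4, c5⟩ := exists_proj U A (by
      intro v w
      simp only [hA, lap, LinearMap.add_apply, LinearMap.sub_apply, Module.End.one_apply, map_add,
        map_sub, sym_avg (form U) σ hs ha, sym_avg (form U) σ hs hb, sym_avg (form U) σ hs he])
    (by
      intro v
      rw [hA, lap_form (form U) σ hs ha hb he]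
      exact add_nonneg (add_nonneg (form_nonneg U _) (form_nonneg U _)) (form_nonneg U _))
    (by
      intro v
      rw [hA]
      exact lap_gap (form U) σ (form_symm U) (form_nonneg U) hs ha hb he h1 h2 h3 v)
  rw [hA] at c4 c5
  have fx : ∀ w, σ a (Phi U p w) = Phi U p w ∧ σ b (Phi U p w) = Phi U p w ∧
      σ e (Phi U p w) = Phi U p w := fun w =>
    fix_of_form (form U) σ (form_nonneg U) (form_def U) hs ha hb he _ (by rw [c4]; simp)
  have fc : ∀ g ∈ Subgroup.closure {a, b, e}, ∀ w, σ g (Phi U p w) = Phi U p w := by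
    intro g hg w
    induction hg using Subgroup.closure_induction with
    | mem x hx =>
      rcases hx with rfl | rfl | rfl
      exacts [(fx w).1, (fx w).2.1, (fx w).2.2]
    | one => simp
    | mul x y _ _ hx hy => rw [map_mul, Module.End.mul_apply, hy, hx]
    | inv x _ hx =>
      conv_lhs => rw [← hx]
      rw [← Module.End.mul_apply, ← map_mul, inv_mul_cancel, map_one, Module.End.one_apply]
  have mv : ∀ (g : G) (v : UP H U), σ (t * g * t⁻¹) v = v → σ g (σ t⁻¹ v) = σ t⁻¹ v := by
    intro g v hv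
    conv_rhs => rw [← hv]
    rw [← Module.End.mul_apply, ← map_mul, ← Module.End.mul_apply, ← map_mul]
    congr 2
    group
  have q1 : ∀ v, Phi U p (σ t⁻¹ (Phi U p v)) = σ t⁻¹ (Phi U p v) := fun v =>
    c5 _ (lap_fix σ (mv a _ (fc _ hta v)) (mv b _ (fc _ htb v)) (mv e _ (fc _ hte v)))
  have q2 := swap_Phi U p (π t⁻¹) c1 c2 c3 (hiso _) (by
    refine LinearMap.ext fun v => ?_
    simp only [map_mul, map_sub, map_one, ← hσ, Module.End.mul_apply, LinearMap.sub_apply,
      Module.End.one_apply, q1, sub_self, LinearMap.zero_apply])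
  have q3 := LinearMap.congr_fun q2 w
  simp only [map_mul, map_sub, map_one, ← hσ, Module.End.mul_apply, LinearMap.sub_apply,
    Module.End.one_apply, q1, LinearMap.zero_apply] at q3
  rw [c5 _ (lap_fix σ (mv a _ wa) (mv b _ wb) (mv e _ we)), sub_eq_zero] at q3
  have q4 := congrArg (σ t) q3
  rw [← Module.End.mul_apply, ← map_mul, ← Module.End.mul_apply, ← map_mul, mul_inv_cancel,
    map_one, Module.End.one_apply, Module.End.one_apply] at q4
  rw [q4]
  exact (fx w).2.2

end Pool.Agent.H66Z.MF
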